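import Pool.Agent.Helper16.FF7

set_option autoImplicit false
set_option linter.style.haveILetI false

namespace Pool.Agent.Helper16

open Polynomial IntermediateField IsDedekindDomain

section

variable {K N : Type} [Field K] [Field N] [Algebra K N]

theorem finiteDimensional_of_fg_of_isAlgebraic (F E : Type) [Field F] [Field E] [Algebra F E]
    [Algebra.EssFiniteType F E] [Algebra.IsAlgebraic F E] : FiniteDimensional F E := by
  obtain ⟨S, hS⟩ := IntermediateField.fg_top F E
  haveI : FiniteDimensional F (IntermediateField.adjoin F (S : Set E)) :=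
    IntermediateField.finiteDimensional_adjoin (fun x _ => (Algebra.IsAlgebraic.isAlgebraic x).isIntegral)
  rw [hS] at this
  exact (IntermediateField.topEquiv (F := F) (E := E)).toLinearEquiv.finiteDimensional

theorem IsFunctionField.finiteDimensional (h : IsFunctionField K N) (f : N)
    (hf : Transcendental K f) : FiniteDimensional K⟮f⟯ N := by
  haveI := h.1
  have h1 : AlgebraicIndependent K (fun _ : Unit => f) :=
    algebraicIndependent_unique_type_iff.2 hf
  have h2 : IsTranscendenceBasis K (fun _ : Unit => f) :=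
    h1.isTranscendenceBasis_of_trdeg_le_of_finite (by rw [h.2]; simp)
  have h3 := h2.isAlgebraic_field
  have h4 : Set.range (fun _ : Unit => f) = {f} := Set.range_const
  rw [h4] at h3
  haveI : Algebra.EssFiniteType K⟮f⟯ N := Algebra.EssFiniteType.of_comp K K⟮f⟯ N
  exact finiteDimensional_of_fg_of_isAlgebraic K⟮f⟯ N

theorem Place.val_eq_one_of_algebraic (v : Place K N) {f : N} (hf : IsAlgebraic K f) (hf0 : f ≠ 0) :
    v.val f = 1 := by
  have h1 : ∀ g : N, IsAlgebraic K g → v.val g ≤ 1 := by
    intro g hg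
    have h2 : IntOver K (0 : N) g := IntOver.of_isIntegral hg.isIntegral
    exact h2.mem_ring v (by simp)
  refine le_antisymm (h1 f hf) ?_
  have := h1 f⁻¹ hf.inv
  rw [map_inv₀] at this
  exact (inv_le_one₀ (zero_lt_iff.2 (by simpa using hf0))).1 this

theorem Place.transcendental_of_val_ne_one (v : Place K N) {f : N} (hf0 : f ≠ 0)
    (hv : v.val f ≠ 1) : Transcendental K f :=
  fun hf => hv (v.val_eq_one_of_algebraic hf hf0)

theorem Place.exists_uniformizer (v : Place K N) : ∃ f : N, f ≠ 0 ∧ v.val f = WithZero.exp (-1 : ℤ) := by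
  obtain ⟨f, hf⟩ := v.surj (WithZero.exp (-1 : ℤ))
  refine ⟨f, ?_, hf⟩
  rintro rfl
  rw [map_zero] at hf
  exact WithZero.exp_ne_zero hf.symm

theorem exp_neg_one_lt : WithZero.exp (-1 : ℤ) < 1 := by
  rw [← WithZero.exp_zero, WithZero.exp_lt_exp]; norm_num

theorem Place.finite_resField (hN : IsFunctionField K N) (v : Place K N) :
    Module.Finite K v.resField := by
  obtain ⟨f, hf0, hf⟩ := v.exists_uniformizer
  have hlt : v.val f < 1 := by rw [hf]; exact exp_neg_one_lt
  have htr := v.transcendental_of_val_ne_one hf0 hlt.ne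
  haveI := hN.finiteDimensional f htr
  obtain ⟨P, rfl⟩ := exists_placeOfPrime f htr v hlt.le
  exact (deg_placeOfPrime f htr P ((placeOfPrime_val_lt f htr P (sIC K f)).1 hlt)).2

theorem Place.deg_pos (hN : IsFunctionField K N) (v : Place K N) : 0 < v.deg := by
  haveI := v.finite_resField hN
  exact Module.finrank_pos

/-- Zeros of a transcendental element. -/
theorem IsFunctionField.zeros (hN : IsFunctionField K N) (f : N) (hf : Transcendental K f) :
    ∃ S : Finset (Place K N), (∀ v, v ∈ S ↔ v.val f < 1) ∧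
      ∑ v ∈ S, v.ord f * (v.deg : ℤ) = (Module.finrank K⟮f⟯ N : ℤ) ∧
      0 < Module.finrank K⟮f⟯ N := by
  haveI := hN.finiteDimensional f hf
  obtain ⟨S, h1, h2⟩ := sum_zeros f hf
  exact ⟨S, h1, h2, Module.finrank_pos⟩

/-- The product formula. -/
theorem IsFunctionField.product_formula (hN : IsFunctionField K N) (f : N) :
    ∃ S : Finset (Place K N), (∀ v, v ∈ S ↔ v.ord f ≠ 0) ∧
      ∑ v ∈ S, v.ord f * (v.deg : ℤ) = 0 := by
  classical
  by_cases hf0 : f = 0
  · subst hf0
    exact ⟨∅, fun v => by simp [v.ord_zero], by simp⟩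
  by_cases hf : IsAlgebraic K f
  · refine ⟨∅, fun v => ?_, by simp⟩
    simp [(v.ord_eq_zero_iff hf0).2 (v.val_eq_one_of_algebraic hf hf0)]
  · obtain ⟨S, h1, h2, -⟩ := hN.zeros f hf
    obtain ⟨T, h3, h4, -⟩ := hN.zeros f⁻¹ (transcendental_inv hf)
    rw [finrank_inv] at h4
    have hT : ∀ v : Place K N, v ∈ T ↔ 1 < v.val f := by
      intro v
      rw [h3, map_inv₀, inv_lt_one₀ (zero_lt_iff.2 (by simpa using hf0))]
    have hdisj : Disjoint S T := by
      rw [Finset.disjoint_left]
      intro v hv hv'
      rw [h1] at hv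
      rw [hT] at hv'
      exact lt_asymm hv hv'
    refine ⟨S ∪ T, fun v => ?_, ?_⟩
    · rw [Finset.mem_union, h1, hT, Ne, v.ord_eq_zero_iff hf0]
      constructor
      · rintro (h | h)
        · exact h.ne
        · exact h.ne'
      · intro h
        exact lt_or_gt_of_ne h
    · rw [Finset.sum_union hdisj, h2]
      have h5 : ∑ v ∈ T, v.ord f * (v.deg : ℤ) = - ∑ v ∈ T, v.ord f⁻¹ * (v.deg : ℤ) := by
        rw [← Finset.sum_neg_distrib]
        refine Finset.sum_congr rfl fun v _ => ?_
        rw [v.ord_inv]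
        ring
      rw [h5, h4]
      ring

end

end Pool.Agent.Helper16
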