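import Pool.Agent.Helper16.BBDefs

set_option autoImplicit false
set_option linter.style.haveILetI false

namespace Pool.Agent.Helper16

open Polynomial IntermediateField

namespace Place

variable {K N : Type} [Field K] [Field N] [Algebra K N]

theorem ext_val {v w : Place K N} (h : v.val = w.val) : v = w := by
  cases v; cases w; cases h; rfl

theorem val_algebraMap_le (v : Place K N) (a : K) : v.val (algebraMap K N a) ≤ 1 := by
  by_cases ha : a = 0
  · subst ha; simp
  · exact (v.triv a ha).le

theorem mem_ring (v : Place K N) (x : N) : x ∈ v.ring ↔ v.val x ≤ 1 := Iff.rfl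

theorem isUnit_iff (v : Place K N) (x : v.ring) : IsUnit x ↔ v.val (x : N) = 1 := by
  constructor
  · rintro ⟨u, rfl⟩
    have h1 : v.val ((u : v.ring) : N) ≤ 1 := (u : v.ring).2
    have h2 : v.val (((u⁻¹ : v.ringˣ) : v.ring) : N) ≤ 1 := ((u⁻¹ : v.ringˣ) : v.ring).2
    have h3 : ((u : v.ring) : N) * (((u⁻¹ : v.ringˣ) : v.ring) : N) = 1 := by
      have := u.mul_inv
      exact congrArg Subtype.val this
    have h4 := congrArg v.val h3
    rw [map_mul, map_one] at h4
    refine le_antisymm h1 ?_
    by_contra h5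
    rw [not_le] at h5
    have : v.val ((u : v.ring) : N) * v.val (((u⁻¹ : v.ringˣ) : v.ring) : N) < 1 :=
      mul_lt_one_of_lt_of_le h5 h2
    rw [h4] at this
    exact lt_irrefl _ this
  · intro h
    have hx0 : (x : N) ≠ 0 := by
      intro h0
      rw [h0, map_zero] at h
      exact zero_ne_one h
    have h1 : (x : N)⁻¹ ∈ v.ring := by
      rw [mem_ring, map_inv₀, h, inv_one]
    refine ⟨⟨x, ⟨(x : N)⁻¹, h1⟩, ?_, ?_⟩, rfl⟩
    · apply Subtype.ext
      exact mul_inv_cancel₀ hx0
    · apply Subtype.ext
      exact inv_mul_cancel₀ hx0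

instance (v : Place K N) : IsLocalRing v.ring := by
  refine IsLocalRing.of_nonunits_add ?_
  intro a b ha hb
  rw [mem_nonunits_iff, isUnit_iff] at *
  have ha' : v.val (a : N) < 1 := lt_of_le_of_ne a.2 ha
  have hb' : v.val (b : N) < 1 := lt_of_le_of_ne b.2 hb
  have : v.val ((a : N) + (b : N)) < 1 := v.val.map_add_lt ha' hb'
  exact this.ne

theorem mem_maximalIdeal (v : Place K N) (x : v.ring) :
    x ∈ IsLocalRing.maximalIdeal v.ring ↔ v.val (x : N) < 1 := by
  rw [IsLocalRing.mem_maximalIdeal, mem_nonunits_iff, isUnit_iff]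
  exact ⟨fun h => lt_of_le_of_ne x.2 h, fun h => h.ne⟩

/-- The residue field of a place. -/
abbrev resField (v : Place K N) : Type := IsLocalRing.ResidueField v.ring

/-- The residue of an element of `N` at a place; junk value `0` if the element is not regular. -/
noncomputable def res (v : Place K N) (x : N) : v.resField :=
  open scoped Classical in
  if h : x ∈ v.ring then IsLocalRing.residue v.ring ⟨x, h⟩ else 0

theorem res_of_mem (v : Place K N) {x : N} (h : x ∈ v.ring) :
    v.res x = IsLocalRing.residue v.ring ⟨x, h⟩ := dif_pos h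

/-- The degree of a place. -/
noncomputable def deg (v : Place K N) : ℕ := Module.finrank K v.resField

section res

variable (v : Place K N)

theorem res_add {x y : N} (hx : x ∈ v.ring) (hy : y ∈ v.ring) :
    v.res (x + y) = v.res x + v.res y := by
  rw [res_of_mem v hx, res_of_mem v hy, res_of_mem v (add_mem hx hy), ← map_add]
  rfl

theorem res_mul {x y : N} (hx : x ∈ v.ring) (hy : y ∈ v.ring) :
    v.res (x * y) = v.res x * v.res y := by
  rw [res_of_mem v hx, res_of_mem v hy, res_of_mem v (mul_mem hx hy), ← map_mul]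
  rfl

theorem res_algebraMap (a : K) : v.res (algebraMap K N a) = algebraMap K v.resField a := by
  rw [res_of_mem v (v.ring.algebraMap_mem a)]
  rfl

theorem res_zero : v.res 0 = 0 := by
  rw [res_of_mem v (zero_mem _)]
  exact map_zero _

theorem res_one : v.res 1 = 1 := by
  rw [res_of_mem v (one_mem _)]
  exact map_one _

theorem res_neg {x : N} (hx : x ∈ v.ring) : v.res (-x) = - v.res x := by
  rw [res_of_mem v hx, res_of_mem v (neg_mem hx), ← map_neg]
  rfl

theorem res_sub {x y : N} (hx : x ∈ v.ring) (hy : y ∈ v.ring) :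
    v.res (x - y) = v.res x - v.res y := by
  rw [sub_eq_add_neg, res_add v hx (neg_mem hy), res_neg v hy, sub_eq_add_neg]

theorem res_pow {x : N} (hx : x ∈ v.ring) (n : ℕ) : v.res (x ^ n) = v.res x ^ n := by
  induction n with
  | zero => simp [res_one]
  | succ n ih => rw [pow_succ, res_mul v (pow_mem hx n) hx, ih, pow_succ]

theorem res_eq_zero_iff {x : N} (hx : x ∈ v.ring) : v.res x = 0 ↔ v.val x < 1 := by
  rw [res_of_mem v hx, IsLocalRing.residue_eq_zero_iff, mem_maximalIdeal]

theorem res_surj (r : v.resField) : ∃ x ∈ v.ring, v.res x = r := by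
  obtain ⟨⟨x, hx⟩, rfl⟩ := IsLocalRing.residue_surjective r
  exact ⟨x, hx, res_of_mem v hx⟩

theorem res_aeval {x : N} (hx : x ∈ v.ring) (p : K[X]) :
    aeval x p ∈ v.ring ∧ v.res (aeval x p) = aeval (v.res x) p := by
  induction p using Polynomial.induction_on' with
  | add p q hp hq =>
    rw [map_add, map_add]
    exact ⟨add_mem hp.1 hq.1, by rw [res_add v hp.1 hq.1, hp.2, hq.2]⟩
  | monomial n a =>
    rw [aeval_monomial, aeval_monomial]
    refine ⟨mul_mem (v.ring.algebraMap_mem a) (pow_mem hx n), ?_⟩
    rw [res_mul v (v.ring.algebraMap_mem a) (pow_mem hx n), res_algebraMap, res_pow v hx]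

end res

section ord

variable (v : Place K N)

theorem ord_zero : v.ord 0 = 0 := by simp [ord]

theorem ord_one : v.ord 1 = 0 := by simp [ord]

theorem ord_mul {x y : N} (hx : x ≠ 0) (hy : y ≠ 0) : v.ord (x * y) = v.ord x + v.ord y := by
  unfold ord
  rw [map_mul, WithZero.log_mul (by simpa using hx) (by simpa using hy)]
  ring

theorem ord_inv (x : N) : v.ord x⁻¹ = - v.ord x := by
  unfold ord
  rw [map_inv₀, WithZero.log_inv]

theorem ord_pos_iff {x : N} (hx : x ≠ 0) : 0 < v.ord x ↔ v.val x < 1 := by
  unfold ord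
  rw [← WithZero.log_lt_log (by simpa using hx) one_ne_zero, WithZero.log_one]
  omega

theorem ord_nonneg_iff {x : N} (hx : x ≠ 0) : 0 ≤ v.ord x ↔ v.val x ≤ 1 := by
  unfold ord
  rw [← WithZero.log_le_log (by simpa using hx) one_ne_zero, WithZero.log_one]
  omega

theorem ord_neg_iff {x : N} (hx : x ≠ 0) : v.ord x < 0 ↔ 1 < v.val x := by
  unfold ord
  rw [← WithZero.log_lt_log one_ne_zero (by simpa using hx), WithZero.log_one]
  omega

theorem ord_eq_zero_iff {x : N} (hx : x ≠ 0) : v.ord x = 0 ↔ v.val x = 1 := by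
  constructor
  · intro h
    refine le_antisymm ((v.ord_nonneg_iff hx).1 h.ge) ?_
    by_contra hlt
    rw [not_le] at hlt
    have := (v.ord_pos_iff hx).2 hlt
    omega
  · intro h
    unfold ord
    rw [h]
    simp

theorem ord_algebraMap (a : K) : v.ord (algebraMap K N a) = 0 := by
  by_cases ha : a = 0
  · subst ha; simp [ord]
  · unfold ord
    rw [v.triv a ha]
    simp

end ord

end Place

end Pool.Agent.Helper16
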