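import Pool.Agent.Helper16.FF6

set_option autoImplicit false
set_option linter.style.haveILetI false

namespace Pool.Agent.Helper16

open Polynomial IntermediateField IsDedekindDomain

section Ded

variable {K N : Type} [Field K] [Field N] [Algebra K N]

/-- `s` as an element of the integral closure of `K[s]`. -/
def sIC (K : Type) {N : Type} [Field K] [Field N] [Algebra K N] (s : N) : IC K s :=
  ⟨s, IntOver.self s⟩

theorem algebraMap_X_IC (s : N) :
    letI := algX K s
    algebraMap K[X] (IC K s) X = sIC K s := by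
  letI := algX K s
  apply Subtype.ext
  change aeval s (X : K[X]) = s
  simp

theorem liesOver_of_mem (s : N) (P : HeightOneSpectrum (IC K s)) (h : sIC K s ∈ P.asIdeal) :
    letI := algX K s
    P.asIdeal.LiesOver (Ideal.span {(X : K[X])}) := by
  letI := algX K s
  have hmax : (Ideal.span {(X : K[X])}).IsMaximal :=
    PrincipalIdealRing.isMaximal_of_irreducible irreducible_X
  refine ⟨?_⟩
  apply hmax.eq_of_le
  · intro h1
    apply P.isPrime.ne_top
    rw [Ideal.eq_top_iff_one] at h1 ⊢
    simpa using h1
  · rw [Ideal.span_singleton_le_iff_mem]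
    change algebraMap K[X] (IC K s) X ∈ P.asIdeal
    rw [algebraMap_X_IC]
    exact h

theorem exists_resEquiv (s : N) (hs : Transcendental K s) [FiniteDimensional K⟮s⟯ N]
    (P : HeightOneSpectrum (IC K s)) :
    letI := algX K s
    haveI := towerX (K := K) s
    Nonempty ((IC K s ⧸ P.asIdeal) ≃ₐ[K] (placeOfPrime s hs P).resField) := by
  letI := algX K s
  haveI := towerX (K := K) s
  haveI := isDedekindDomain_IC s hs
  haveI := isFractionRing_IC s hs
  haveI : P.asIdeal.IsMaximal := P.isMaximal
  let v := placeOfPrime s hs P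
  let ψ : IC K s →ₐ[K] v.resField :=
    { toFun := fun b => IsLocalRing.residue v.ring ⟨(b : N), placeOfPrime_val_algebraMap s hs P b⟩
      map_one' := map_one _
      map_mul' := fun a b => by rw [← map_mul]; rfl
      map_zero' := map_zero _
      map_add' := fun a b => by rw [← map_add]; rfl
      commutes' := fun a => by
        have h1 : (⟨((algebraMap K (IC K s) a : IC K s) : N),
            placeOfPrime_val_algebraMap s hs P _⟩ : v.ring) = algebraMap K v.ring a := by
          rfl
        rw [h1]
        rfl }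
  have hψ : ∀ b, ψ b = 0 ↔ b ∈ P.asIdeal := by
    intro b
    change IsLocalRing.residue v.ring _ = 0 ↔ _
    rw [IsLocalRing.residue_eq_zero_iff, Place.mem_maximalIdeal]
    exact placeOfPrime_val_lt s hs P b
  have hsurj : Function.Surjective ψ := by
    intro r
    obtain ⟨⟨x, hx⟩, rfl⟩ := IsLocalRing.residue_surjective r
    obtain ⟨n, d, hnd⟩ := P.exists_primeCompl_mul_eq_of_integer (K := N) x hx
    obtain ⟨e, i, hi, he⟩ := P.isMaximal.exists_inv d.2
    refine ⟨n * e, ?_⟩
    change IsLocalRing.residue v.ring _ = IsLocalRing.residue v.ring _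
    rw [← sub_eq_zero, ← map_sub, IsLocalRing.residue_eq_zero_iff, Place.mem_maximalIdeal]
    have h1 : (n * e : IC K s) = (n : N) * (e : N) := rfl
    have h2 : (e : N) * ((d : IC K s) : N) + (i : N) = 1 := by
      have := congrArg (Subtype.val) he
      exact this
    have h3 : x * ((d : IC K s) : N) = (n : N) := hnd
    have h4 : ((n * e : IC K s) : N) - x = - (x * (i : N)) := by
      rw [h1, ← h3]
      linear_combination x * h2
    change v.val (((n * e : IC K s) : N) - x) < 1
    rw [h4, Valuation.map_neg, map_mul, mul_comm]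
    exact mul_lt_one_of_lt_of_le ((placeOfPrime_val_lt s hs P i).2 hi) hx
  have hker : RingHom.ker ψ = P.asIdeal := by
    ext b
    exact hψ b
  exact ⟨(Ideal.quotientEquivAlgOfEq K hker.symm).trans (Ideal.quotientKerAlgEquivOfSurjective hsurj)⟩

theorem deg_placeOfPrime (s : N) (hs : Transcendental K s) [FiniteDimensional K⟮s⟯ N]
    (P : HeightOneSpectrum (IC K s)) (h : sIC K s ∈ P.asIdeal) :
    letI := algX K s
    (placeOfPrime s hs P).deg = P.asIdeal.inertiaDeg K[X] ∧
      Module.Finite K (placeOfPrime s hs P).resField := by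
  letI := algX K s
  haveI := towerX (K := K) s
  haveI := isDedekindDomain_IC s hs
  haveI := isFractionRing_IC s hs
  haveI := finite_integralClosure s hs
  have hmax : (Ideal.span {(X : K[X])}).IsMaximal :=
    PrincipalIdealRing.isMaximal_of_irreducible irreducible_X
  haveI : P.asIdeal.IsMaximal := P.isMaximal
  haveI := liesOver_of_mem s P h
  obtain ⟨e1⟩ := exists_resEquiv s hs P
  haveI : Module.Free (K[X] ⧸ Ideal.span {(X : K[X])}) (IC K s ⧸ P.asIdeal) := by
    letI := Ideal.Quotient.field (Ideal.span {(X : K[X])})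
    infer_instance
  have h1 : Module.finrank K (K[X] ⧸ Ideal.span {(X : K[X])}) = 1 := by
    rw [finrank_quotient_span_eq_natDegree, natDegree_X]
  constructor
  · rw [Place.deg, ← e1.toLinearEquiv.finrank_eq,
      Ideal.inertiaDeg_eq_of_isMaximal (Ideal.span {(X : K[X])})]
    have h2 := Module.finrank_mul_finrank K (K[X] ⧸ Ideal.span {(X : K[X])}) (IC K s ⧸ P.asIdeal)
    rw [h1, one_mul] at h2
    exact h2.symm
  · haveI : Module.Finite K (K[X] ⧸ Ideal.span {(X : K[X])}) :=
      Module.finite_of_finrank_pos (by rw [h1]; exact one_pos)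
    haveI : Module.Finite (K[X] ⧸ Ideal.span {(X : K[X])}) (IC K s ⧸ P.asIdeal) :=
      Module.Finite.of_restrictScalars_finite K[X] _ _
    haveI : Module.Finite K (IC K s ⧸ P.asIdeal) :=
      Module.Finite.trans (K[X] ⧸ Ideal.span {(X : K[X])}) _
    exact Module.Finite.equiv e1.toLinearEquiv

theorem map_span_X (s : N) :
    letI := algX K s
    (Ideal.span {(X : K[X])}).map (algebraMap K[X] (IC K s)) = Ideal.span {sIC K s} := by
  letI := algX K s
  rw [Ideal.map_span, Set.image_singleton, algebraMap_X_IC]

theorem sIC_ne_zero {s : N} (hs : Transcendental K s) : sIC K s ≠ 0 := by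
  intro h
  exact transcendental_ne_zero hs (congrArg Subtype.val h)

theorem ord_placeOfPrime (s : N) (hs : Transcendental K s) [FiniteDimensional K⟮s⟯ N]
    (P : HeightOneSpectrum (IC K s)) (h : sIC K s ∈ P.asIdeal) :
    letI := algX K s
    (placeOfPrime s hs P).ord s = (P.asIdeal.ramificationIdx K[X] : ℤ) := by
  letI := algX K s
  haveI := towerX (K := K) s
  haveI := isDedekindDomain_IC s hs
  haveI := isFractionRing_IC s hs
  haveI := liesOver_of_mem s P h
  haveI := P.isPrime
  have hmap := map_span_X (K := K) s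
  have hne : (Ideal.span {(X : K[X])}).map (algebraMap K[X] (IC K s)) ≠ ⊥ := by
    rw [hmap]
    simpa using sIC_ne_zero hs
  rw [Ideal.IsDedekindDomain.ramificationIdx_eq_multiplicity (Ideal.span {(X : K[X])}) P.asIdeal hne,
    hmap]
  have h1 := P.valuation_of_algebraMap (K := N) (sIC K s)
  rw [P.intValuation_eq_exp_neg_multiplicity (sIC_ne_zero hs)] at h1
  have h2 : (placeOfPrime s hs P).val s = WithZero.exp (-(multiplicity P.asIdeal (Ideal.span {sIC K s}) : ℤ)) := h1
  rw [Place.ord, h2, WithZero.log_exp, neg_neg]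

/-- The zeros of `s`, and the formula `∑ ord_v(s) deg(v) = [N : K(s)]`. -/
theorem sum_zeros (s : N) (hs : Transcendental K s) [FiniteDimensional K⟮s⟯ N] :
    ∃ S : Finset (Place K N), (∀ v, v ∈ S ↔ v.val s < 1) ∧
      ∑ v ∈ S, v.ord s * (v.deg : ℤ) = (Module.finrank K⟮s⟯ N : ℤ) := by
  classical
  letI := algX K s
  letI := algXF K s
  haveI := towerXF (K := K) s
  haveI := towerX (K := K) s
  haveI := isFractionRing_algXF s hs
  haveI := faithfulX s hs
  haveI := isDedekindDomain_IC s hs
  haveI := isFractionRing_IC s hs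
  haveI := finite_integralClosure s hs
  have hmax : (Ideal.span {(X : K[X])}).IsMaximal :=
    PrincipalIdealRing.isMaximal_of_irreducible irreducible_X
  haveI : (Ideal.span {(X : K[X])}).IsPrime := hmax.isPrime
  let p := Ideal.span {(X : K[X])}
  letI : Fintype (p.primesOver (IC K s)) := Fintype.ofFinite _
  have hp0 : p ≠ ⊥ := by
    simp [p]
  let F : p.primesOver (IC K s) → HeightOneSpectrum (IC K s) := fun q =>
    ⟨q.1, q.2.1, Ideal.ne_bot_of_mem_primesOver hp0 q.2⟩
  have hF : ∀ q, sIC K s ∈ (F q).asIdeal := by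
    intro q
    have h1 : p ≤ q.1.under K[X] := by
      rw [← q.2.2.over]
    have h2 : (X : K[X]) ∈ q.1.under K[X] := h1 (Ideal.mem_span_singleton_self X)
    have h3 : algebraMap K[X] (IC K s) X ∈ q.1 := h2
    rw [algebraMap_X_IC] at h3
    exact h3
  have hFinj : Function.Injective F := by
    intro q r h
    apply Subtype.ext
    exact congrArg HeightOneSpectrum.asIdeal h
  refine ⟨Finset.univ.image (fun q => placeOfPrime s hs (F q)), ?_, ?_⟩
  · intro v
    rw [Finset.mem_image]
    constructor
    · rintro ⟨q, -, rfl⟩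
      exact (placeOfPrime_val_lt s hs (F q) (sIC K s)).2 (hF q)
    · intro hv
      obtain ⟨P, rfl⟩ := exists_placeOfPrime s hs v hv.le
      have h1 : sIC K s ∈ P.asIdeal := (placeOfPrime_val_lt s hs P (sIC K s)).1 hv
      refine ⟨⟨P.asIdeal, P.isPrime, liesOver_of_mem s P h1⟩, Finset.mem_univ _, rfl⟩
  · rw [Finset.sum_image (fun a _ b _ h => hFinj (placeOfPrime_injective s hs h))]
    have h1 := Ideal.sum_ramification_inertia_eq_finrank p (IC K s)
    have h2 := IsFractionRing.finrank_eq K[X] K⟮s⟯ (IC K s) N
    rw [h2, ← h1]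
    push_cast
    refine Finset.sum_congr rfl fun q _ => ?_
    rw [ord_placeOfPrime s hs (F q) (hF q), (deg_placeOfPrime s hs (F q) (hF q)).1]

end Ded

end Pool.Agent.Helper16
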