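import Pool.Agent.Helper16.FF5

set_option autoImplicit false
set_option linter.style.haveILetI false

namespace Pool.Agent.Helper16

open Polynomial IntermediateField IsDedekindDomain

section Ded

variable {K N : Type} [Field K] [Field N] [Algebra K N]

/-- Elements integral over `K[s]` are regular at all places where `s` is regular. -/
theorem IntOver.mem_ring {s x : N} (hx : IntOver K s x) (v : Place K N) (hs : v.val s ≤ 1) :
    v.val x ≤ 1 := by
  have := hx.mem_valuationSubring v.val.valuationSubring (fun a => v.val_algebraMap_le a) hs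
  exact this

/-- The place attached to a prime of the integral closure of `K[s]`. -/
noncomputable def placeOfPrime (s : N) (hs : Transcendental K s) [FiniteDimensional K⟮s⟯ N]
    (P : HeightOneSpectrum (IC K s)) : Place K N :=
  haveI := isDedekindDomain_IC s hs
  haveI := isFractionRing_IC s hs
  { val := P.valuation N
    surj := P.valuation_surjective N
    triv := by
      intro a ha
      have h1 : IsUnit (⟨algebraMap K N a, IntOver.const s a⟩ : IC K s) := by
        refine ⟨⟨⟨algebraMap K N a, IntOver.const s a⟩, ⟨algebraMap K N a⁻¹, IntOver.const s a⁻¹⟩,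
          ?_, ?_⟩, rfl⟩
        · apply Subtype.ext
          change algebraMap K N a * algebraMap K N a⁻¹ = 1
          rw [← map_mul, mul_inv_cancel₀ ha, map_one]
        · apply Subtype.ext
          change algebraMap K N a⁻¹ * algebraMap K N a = 1
          rw [← map_mul, inv_mul_cancel₀ ha, map_one]
      have h2 := P.valuation_of_algebraMap (K := N) (⟨algebraMap K N a, IntOver.const s a⟩ : IC K s)
      have h3 : P.intValuation (⟨algebraMap K N a, IntOver.const s a⟩ : IC K s) = 1 := by
        rw [HeightOneSpectrum.intValuation_eq_one_iff]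
        intro hmem
        exact P.isPrime.ne_top (Ideal.eq_top_of_isUnit_mem _ hmem h1)
      rw [h3] at h2
      exact h2 }

theorem placeOfPrime_val_algebraMap (s : N) (hs : Transcendental K s) [FiniteDimensional K⟮s⟯ N]
    (P : HeightOneSpectrum (IC K s)) (b : IC K s) : (placeOfPrime s hs P).val (b : N) ≤ 1 := by
  haveI := isDedekindDomain_IC s hs
  haveI := isFractionRing_IC s hs
  exact P.valuation_le_one (K := N) b

theorem placeOfPrime_val_lt (s : N) (hs : Transcendental K s) [FiniteDimensional K⟮s⟯ N]
    (P : HeightOneSpectrum (IC K s)) (b : IC K s) :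
    (placeOfPrime s hs P).val (b : N) < 1 ↔ b ∈ P.asIdeal := by
  haveI := isDedekindDomain_IC s hs
  haveI := isFractionRing_IC s hs
  exact P.valuation_lt_one_iff_mem (K := N) b

theorem exists_placeOfPrime (s : N) (hs : Transcendental K s) [FiniteDimensional K⟮s⟯ N]
    (v : Place K N) (hv : v.val s ≤ 1) : ∃ P, placeOfPrime s hs P = v := by
  haveI := isDedekindDomain_IC s hs
  haveI := isFractionRing_IC s hs
  let P : Ideal (IC K s) :=
    { carrier := {b | v.val (b : N) < 1}
      add_mem' := fun {a b} ha hb => v.val.map_add_lt ha hb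
      zero_mem' := by
        change v.val ((0 : IC K s) : N) < 1
        simp
      smul_mem' := by
        intro c b hb
        change v.val ((c * b : IC K s) : N) < 1
        have h1 : ((c * b : IC K s) : N) = (c : N) * (b : N) := rfl
        rw [h1, map_mul, mul_comm]
        exact mul_lt_one_of_lt_of_le hb (IntOver.mem_ring (K := K) c.2 v hv) }
  have hmem : ∀ b : IC K s, b ∈ P ↔ v.val (b : N) < 1 := fun b => Iff.rfl
  have hprime : P.IsPrime := by
    refine ⟨?_, ?_⟩
    · rw [Ideal.ne_top_iff_one, hmem]
      have h1 : ((1 : IC K s) : N) = 1 := rfl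
      rw [h1, map_one]
      exact lt_irrefl _
    · intro a b hab
      rw [hmem] at hab
      have h1 : ((a * b : IC K s) : N) = (a : N) * (b : N) := rfl
      rw [h1, map_mul] at hab
      by_contra hcon
      rw [not_or, hmem, hmem, not_lt, not_lt] at hcon
      exact absurd hab (not_lt.2 (one_le_mul hcon.1 hcon.2))
  have hbot : P ≠ ⊥ := by
    intro h0
    obtain ⟨y, hy⟩ := v.surj (WithZero.exp (1 : ℤ))
    obtain ⟨a, b, hb, hab⟩ := IsFractionRing.div_surjective (A := IC K s) y
    have hu : ∀ c : IC K s, c ≠ 0 → v.val (c : N) = 1 := by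
      intro c hc
      refine le_antisymm (IntOver.mem_ring (K := K) c.2 v hv) ?_
      by_contra hlt
      rw [not_le] at hlt
      have : c ∈ P := hlt
      rw [h0] at this
      exact hc this
    have hb0 : b ≠ 0 := nonZeroDivisors.ne_zero hb
    have h1 : v.val (algebraMap (IC K s) N b) = 1 := hu b hb0
    rw [← hab, map_div₀, h1, div_one] at hy
    by_cases ha : a = 0
    · rw [ha, map_zero, map_zero] at hy
      exact WithZero.exp_ne_zero hy.symm
    · have h2 : v.val (algebraMap (IC K s) N a) = 1 := hu a ha
      rw [h2, ← WithZero.exp_zero, WithZero.exp_inj] at hy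
      omega
  let Q : HeightOneSpectrum (IC K s) := ⟨P, hprime, hbot⟩
  refine ⟨Q, ?_⟩
  apply Place.ext_val
  symm
  apply valuation_eq_of_le _ _ v.surj (placeOfPrime s hs Q).surj
  intro x hx
  obtain ⟨n, d, hnd⟩ := Q.exists_primeCompl_mul_eq_of_integer (K := N) x hx
  have hd : v.val (algebraMap (IC K s) N d) = 1 := by
    refine le_antisymm (IntOver.mem_ring (K := K) d.1.2 v hv) ?_
    by_contra hlt
    rw [not_le] at hlt
    exact d.2 hlt
  have h1 := congrArg v.val hnd
  rw [map_mul, hd, mul_one] at h1
  rw [h1]
  exact IntOver.mem_ring (K := K) n.2 v hv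

theorem placeOfPrime_injective (s : N) (hs : Transcendental K s) [FiniteDimensional K⟮s⟯ N] :
    Function.Injective (placeOfPrime (K := K) s hs) := by
  intro P Q h
  apply HeightOneSpectrum.ext
  ext b
  rw [← placeOfPrime_val_lt s hs P, ← placeOfPrime_val_lt s hs Q, h]

end Ded

end Pool.Agent.Helper16
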