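import Mathlib

set_option autoImplicit false

namespace Pool.Agent.Helper16

/-- `N` is a function field of one variable over `K`: a finitely generated field extension of
transcendence degree one. -/
def IsFunctionField (K N : Type) [Field K] [Field N] [Algebra K N] : Prop :=
  Algebra.EssFiniteType K N ∧ Algebra.trdeg K N = 1

/-- A place of the field extension `N/K`: a surjective (normalised) discrete valuation of `N`
with values in `ℤ ∪ {∞}` (written multiplicatively) which is trivial on `K`. -/
structure Place (K N : Type) [Field K] [Field N] [Algebra K N] where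
  /-- the valuation -/
  val : Valuation N (WithZero (Multiplicative ℤ))
  surj : Function.Surjective val
  triv : ∀ a : K, a ≠ 0 → val (algebraMap K N a) = 1

/-- The order of `f` at the place `v` (with the convention `ord 0 = 0`). -/
noncomputable def Place.ord {K N : Type} [Field K] [Field N] [Algebra K N] (v : Place K N)
    (f : N) : ℤ := -WithZero.log (v.val f)

/-- The valuation ring of a place, as a `K`-subalgebra of `N`. -/
def Place.ring {K N : Type} [Field K] [Field N] [Algebra K N] (v : Place K N) :
    Subalgebra K N where
  carrier := {x | v.val x ≤ 1}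
  mul_mem' := fun {a b} ha hb => (map_mul v.val a b).trans_le (mul_le_one' ha hb)
  add_mem' := fun {a b} ha hb => (v.val.map_add a b).trans (max_le ha hb)
  algebraMap_mem' := fun a => (em (a = 0)).elim
    (fun h => by simp [h]) (fun h => (v.triv a h).le)

namespace BB

/-- The coordinates of a point are acted on by the torus `(N*)^ι`, with weights `w`. -/
def scale {σ ι N : Type} [Fintype ι] [Field N] (w : σ → ι → ℕ) (c : ι → N) (x : σ → N) : σ → N :=
  fun j => (∏ i, c i ^ w j i) * x j

/-- `x` is a system of homogeneous coordinates, with values in `N`, of a point of the variety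
`X` with equations `I` in a product, indexed by `ι`, of (weighted) projective spaces over `K`; for
each factor some coordinate of weight one of this factor has to be nonzero. -/
def IsPoint {K σ ι : Type} [Field K] [DecidableEq ι] (w : σ → ι → ℕ) (I : Set (MvPolynomial σ K))
    {N : Type} [Field N] [Algebra K N] (x : σ → N) : Prop :=
  (∀ i, ∃ j, w j = Pi.single i 1 ∧ x j ≠ 0) ∧ ∀ P ∈ I, MvPolynomial.aeval x P = 0

/-- Generators of the relations between zero-cycles on `X` with rational coefficients. A point
of `X` over the algebraic closure of `K` stands for the closed point of `X` below it divided by its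
degree. The relations are: invariance under scaling the coordinates, invariance under
automorphisms of the algebraic closure over `K`, and for every function field of one variable
`N` over `K`, every point `x` of `X` over `N` and every nonzero `f` in `N` the vanishing of the sum
of `ord_v(f) deg(v) [x(v)]` over the places `v` of `N/K`, where `x(v)` is the point to which
`x` specialises at `v`. -/
def relations {K σ ι : Type} [Field K] [Fintype ι] [DecidableEq ι] (w : σ → ι → ℕ)
    (I : Set (MvPolynomial σ K)) : Set ((σ → AlgebraicClosure K) →₀ ℚ) :=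
  {r | ∃ (c : ι → AlgebraicClosure K) (x : σ → AlgebraicClosure K), (∀ i, c i ≠ 0) ∧
    IsPoint w I x ∧ r = Finsupp.single (scale w c x) 1 - Finsupp.single x 1} ∪
  {r | ∃ (τ : AlgebraicClosure K ≃ₐ[K] AlgebraicClosure K) (x : σ → AlgebraicClosure K),
    IsPoint w I x ∧ r = Finsupp.single (fun j => τ (x j)) 1 - Finsupp.single x 1} ∪
  {r | ∃ (N : Type) (_ : Field N) (_ : Algebra K N) (x : σ → N) (f : N)
    (S : Finset (Place K N)) (ρ : (v : Place K N) → (v.ring →ₐ[K] AlgebraicClosure K))
    (y : Place K N → σ → AlgebraicClosure K),
    IsFunctionField K N ∧ IsPoint w I x ∧ f ≠ 0 ∧ (∀ v, v ∈ S ↔ v.ord f ≠ 0) ∧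
    (∀ v ∈ S, IsPoint w I (y v) ∧ ∃ (c : ι → N) (h : ∀ j, scale w c x j ∈ v.ring),
      (∀ i, c i ≠ 0) ∧ ∀ j, y v j = ρ v ⟨scale w c x j, h j⟩) ∧
    r = ∑ v ∈ S, Finsupp.single (y v) ((v.ord f * Module.finrank K (ρ v).range : ℤ) : ℚ)}

/-- Zero-cycles (with rational coefficients) on `X`. -/
noncomputable def cycles {K σ ι : Type} [Field K] [DecidableEq ι] (w : σ → ι → ℕ)
    (I : Set (MvPolynomial σ K)) : Submodule ℚ ((σ → AlgebraicClosure K) →₀ ℚ) :=
  Finsupp.supported ℚ ℚ {x | IsPoint w I x}

/-- Rational equivalence of zero-cycles. -/
noncomputable def ratEquiv {K σ ι : Type} [Field K] [Fintype ι] [DecidableEq ι] (w : σ → ι → ℕ)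
    (I : Set (MvPolynomial σ K)) : Submodule ℚ ((σ → AlgebraicClosure K) →₀ ℚ) :=
  Submodule.span ℚ (relations w I)

end BB

end Pool.Agent.Helper16
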