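import Mathlib

set_option autoImplicit false
set_option linter.style.haveILetI false

namespace Pool.Agent.Helper16

open Polynomial IntermediateField

section Setup

/-- `N` as a `K[X]`-algebra via `X ↦ s`. -/
@[reducible] noncomputable def algX (K : Type) {N : Type} [Field K] [Field N] [Algebra K N] (s : N) :
    Algebra K[X] N := (aeval s : K[X] →ₐ[K] N).toRingHom.toAlgebra

/-- `K(s)` as a `K[X]`-algebra via `X ↦ s`. -/
@[reducible] noncomputable def algXF (K : Type) {N : Type} [Field K] [Field N] [Algebra K N] (s : N) :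
    Algebra K[X] K⟮s⟯ := (aeval (AdjoinSimple.gen K s) : K[X] →ₐ[K] K⟮s⟯).toRingHom.toAlgebra

variable {K N : Type} [Field K] [Field N] [Algebra K N]

theorem algX_apply (s : N) (p : K[X]) : @algebraMap K[X] N _ _ (algX K s) p = aeval s p := rfl

theorem algXF_apply (s : N) (p : K[X]) : (@algebraMap K[X] K⟮s⟯ _ _ (algXF K s) p : N) = aeval s p := by
  change ((aeval (AdjoinSimple.gen K s) p : K⟮s⟯) : N) = aeval s p
  have := aeval_algebraMap_apply N (AdjoinSimple.gen K s) p
  rw [AdjoinSimple.algebraMap_gen] at this
  exact this.symm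

theorem towerXF (s : N) : @IsScalarTower K[X] K⟮s⟯ N (algXF K s).toSMul _ (algX K s).toSMul := by
  letI := algXF K s
  letI := algX K s
  refine IsScalarTower.of_algebraMap_eq fun p => ?_
  rw [algX_apply]
  exact (algXF_apply s p).symm

theorem towerX (s : N) : @IsScalarTower K K[X] N _ (algX K s).toSMul _ := by
  letI := algX K s
  refine IsScalarTower.of_algebraMap_eq fun p => ?_
  rw [algX_apply]
  simp

theorem faithfulX (s : N) (hs : Transcendental K s) : @FaithfulSMul K[X] N (algX K s).toSMul := by
  letI := algX K s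
  rw [faithfulSMul_iff_algebraMap_injective]
  exact transcendental_iff_injective.1 hs

theorem isFractionRing_algXF (s : N) (hs : Transcendental K s) :
    @IsFractionRing K[X] _ K⟮s⟯ _ (algXF K s) := by
  letI := algXF K s
  letI := algX K s
  haveI := towerXF (K := K) s
  haveI : FaithfulSMul K[X] K⟮s⟯ := by
    rw [faithfulSMul_iff_algebraMap_injective]
    intro p q h
    apply transcendental_iff_injective.1 hs
    rw [← algXF_apply, ← algXF_apply, h]
  refine IsFractionRing.of_field K[X] K⟮s⟯ fun z => ?_
  obtain ⟨p, q, h⟩ := (mem_adjoin_simple_iff K (z : N)).1 z.2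
  refine ⟨p, q, ?_⟩
  apply Subtype.ext
  rw [h]
  simp only [IntermediateField.coe_div, algXF_apply]

end Setup

end Pool.Agent.Helper16
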