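import Pool.Agent.Helper16.FF9

set_option autoImplicit false
set_option linter.style.haveILetI false

namespace Pool.Agent.Helper16

open Polynomial IntermediateField IsDedekindDomain

section

variable {K N : Type} [Field K] [Field N] [Algebra K N]

/-- Functions with bounded pole order at a place. -/
def Place.filt (v : Place K N) (k : ℤ) : Submodule K N where
  carrier := {f | v.val f ≤ WithZero.exp k}
  add_mem' := fun {a b} ha hb => (v.val.map_add a b).trans (max_le ha hb)
  zero_mem' := by
    change v.val 0 ≤ _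
    rw [map_zero]
    exact zero_le
  smul_mem' := by
    intro c x hx
    change v.val (c • x) ≤ _
    rw [Algebra.smul_def, map_mul]
    calc v.val (algebraMap K N c) * v.val x ≤ 1 * v.val x := by
          gcongr
          exact v.val_algebraMap_le c
      _ = v.val x := one_mul _
      _ ≤ _ := hx

theorem Place.mem_filt (v : Place K N) (k : ℤ) (f : N) : f ∈ v.filt k ↔ v.val f ≤ WithZero.exp k :=
  Iff.rfl

theorem Place.finrank_le_cut (v : Place K N) (hv : Module.Finite K v.resField) (k : ℤ)
    (W : Submodule K N) [FiniteDimensional K W] (hW : W ≤ v.filt (k + 1)) :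
    Module.finrank K W ≤ Module.finrank K (W ⊓ v.filt k : Submodule K N) + v.deg := by
  obtain ⟨π, hπ0, hπ⟩ := v.exists_uniformizer
  have hmem : ∀ f ∈ W, f * π ^ (k + 1) ∈ v.ring := by
    intro f hf
    have h1 : v.val f ≤ WithZero.exp (k + 1) := hW hf
    rw [v.mem_ring, map_mul, map_zpow₀, hπ, ← WithZero.exp_zsmul]
    calc v.val f * WithZero.exp ((k + 1) • (-1 : ℤ)) ≤
          WithZero.exp (k + 1) * WithZero.exp ((k + 1) • (-1 : ℤ)) := by gcongr
      _ = 1 := by
          rw [← WithZero.exp_add]
          simp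
  let T : W →ₗ[K] v.resField :=
    { toFun := fun f => v.res ((f : N) * π ^ (k + 1))
      map_add' := by
        intro f g
        rw [← v.res_add (hmem _ f.2) (hmem _ g.2), ← add_mul]
        rfl
      map_smul' := by
        intro c f
        have h1 : ((c • f : W) : N) * π ^ (k + 1) = algebraMap K N c * ((f : N) * π ^ (k + 1)) := by
          rw [Submodule.coe_smul, Algebra.smul_def, mul_assoc]
        rw [h1, v.res_mul (v.ring.algebraMap_mem c) (hmem _ f.2), v.res_algebraMap,
          RingHom.id_apply, Algebra.smul_def] }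
  have h1 := LinearMap.finrank_range_add_finrank_ker T
  have h2 : Module.finrank K (LinearMap.range T) ≤ v.deg := Submodule.finrank_le _
  have h3 : Module.finrank K (LinearMap.ker T) ≤
      Module.finrank K (W ⊓ v.filt k : Submodule K N) := by
    have h4 : ∀ f : LinearMap.ker T, ((f : W) : N) ∈ (W ⊓ v.filt k : Submodule K N) := by
      intro f
      refine ⟨(f : W).2, ?_⟩
      have h5 : v.res (((f : W) : N) * π ^ (k + 1)) = 0 := f.2
      rw [v.res_eq_zero_iff (hmem _ (f : W).2), map_mul, map_zpow₀, hπ, ← WithZero.exp_zsmul] at h5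
      change v.val ((f : W) : N) ≤ _
      by_cases h6 : ((f : W) : N) = 0
      · rw [h6, map_zero]
        exact zero_le
      · have h7 : v.val ((f : W) : N) ≠ 0 := by simpa using h6
        rw [← WithZero.exp_log h7] at h5 ⊢
        rw [← WithZero.exp_add, ← WithZero.exp_zero, WithZero.exp_lt_exp] at h5
        rw [WithZero.exp_le_exp]
        simp at h5
        omega
    let ι : LinearMap.ker T →ₗ[K] (W ⊓ v.filt k : Submodule K N) :=
      { toFun := fun f => ⟨((f : W) : N), h4 f⟩
        map_add' := fun f g => rfl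
        map_smul' := fun c f => rfl }
    apply LinearMap.finrank_le_finrank_of_injective (f := ι)
    intro f g hfg
    have h8 : ((f : W) : N) = ((g : W) : N) :=
      congrArg (fun z : (W ⊓ v.filt k : Submodule K N) => (z : N)) hfg
    exact Subtype.ext (Subtype.ext h8)
  omega

theorem Place.finrank_le_cut_nat (v : Place K N) (hv : Module.Finite K v.resField) (k : ℕ)
    (W : Submodule K N) [FiniteDimensional K W] (hW : W ≤ v.filt k) :
    Module.finrank K W ≤ Module.finrank K (W ⊓ v.filt 0 : Submodule K N) + k * v.deg := by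
  induction k generalizing W with
  | zero =>
    have : W ⊓ v.filt 0 = W := inf_eq_left.2 (by simpa using hW)
    rw [this]
    omega
  | succ k ih =>
    have h1 := v.finrank_le_cut hv k W (by simpa using hW)
    haveI : FiniteDimensional K (W ⊓ v.filt (k : ℤ) : Submodule K N) :=
      Submodule.finiteDimensional_inf_left _ _
    have h2 := ih (W ⊓ v.filt (k : ℤ)) inf_le_right
    have h3 : (W ⊓ v.filt (k : ℤ)) ⊓ v.filt 0 ≤ W ⊓ v.filt 0 :=
      inf_le_inf_right _ inf_le_left
    have h4 : Module.finrank K ((W ⊓ v.filt (k : ℤ)) ⊓ v.filt 0 : Submodule K N) ≤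
        Module.finrank K (W ⊓ v.filt 0 : Submodule K N) := by
      haveI : FiniteDimensional K (W ⊓ v.filt 0 : Submodule K N) :=
        Submodule.finiteDimensional_inf_left _ _
      exact Submodule.finrank_mono h3
    have h5 : (k + 1) * v.deg = k * v.deg + v.deg := by ring
    omega

theorem finrank_le_cut_finset (hres : ∀ v : Place K N, Module.Finite K v.resField)
    (T : Finset (Place K N)) (k : Place K N → ℕ)
    (W : Submodule K N) [FiniteDimensional K W] (hW : ∀ v ∈ T, W ≤ v.filt (k v)) :
    Module.finrank K W ≤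
      Module.finrank K (W ⊓ ⨅ v ∈ T, v.filt 0 : Submodule K N) + ∑ v ∈ T, k v * v.deg := by
  classical
  induction T using Finset.induction_on with
  | empty =>
    have h0 : W ⊓ ⨅ v ∈ (∅ : Finset (Place K N)), v.filt 0 = W := by simp
    rw [h0]
    simp
  | insert a T ha ih =>
    have h1 := ih (fun v hv => hW v (Finset.mem_insert_of_mem hv))
    haveI : FiniteDimensional K (W ⊓ ⨅ v ∈ T, v.filt 0 : Submodule K N) :=
      Submodule.finiteDimensional_inf_left _ _
    have h2 := a.finrank_le_cut_nat (hres a) (k a) (W ⊓ ⨅ v ∈ T, v.filt 0)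
      (inf_le_left.trans (hW a (Finset.mem_insert_self _ _)))
    rw [Finset.sum_insert ha]
    have h3 : (W ⊓ ⨅ v ∈ T, v.filt 0) ⊓ a.filt 0 = W ⊓ ⨅ v ∈ insert a T, v.filt 0 := by
      rw [Finset.iInf_insert, inf_assoc, inf_comm (⨅ v ∈ T, v.filt 0)]
    rw [h3] at h2
    omega

theorem exists_integral_basis (s : N) (hs : Transcendental K s) [FiniteDimensional K⟮s⟯ N] :
    ∃ x : Fin (Module.finrank K⟮s⟯ N) → N, LinearIndependent K⟮s⟯ x ∧ ∀ i, IntOver K s (x i) := by
  letI := algX K s
  letI := algXF K s
  haveI := towerXF (K := K) s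
  haveI := isFractionRing_algXF s hs
  haveI := faithfulX s hs
  let b := Module.finBasis K⟮s⟯ N
  have h1 : ∀ i, ∃ d : K⟮s⟯, d ≠ 0 ∧ IntOver K s (d • b i) := by
    intro i
    have halg : IsAlgebraic K[X] (b i) := by
      rw [IsFractionRing.isAlgebraic_iff K[X] K⟮s⟯ N]
      exact Algebra.IsAlgebraic.isAlgebraic _
    obtain ⟨y, hy, hint⟩ := halg.exists_integral_multiple
    refine ⟨algebraMap K[X] K⟮s⟯ y, ?_, ?_⟩
    · rw [Ne, FaithfulSMul.algebraMap_eq_zero_iff]
      exact hy
    · have h2 : algebraMap K[X] K⟮s⟯ y • b i = y • b i := by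
        rw [algebraMap_smul]
      rw [h2]
      exact hint
  choose d hd hint using h1
  refine ⟨fun i => d i • b i, ?_, hint⟩
  have := b.linearIndependent.units_smul (fun i => Units.mk0 (d i) (hd i))
  exact this

theorem linearIndependent_pow_mul (s : N) (hs : Transcendental K s) {n : ℕ} (x : Fin n → N)
    (hx : LinearIndependent K⟮s⟯ x) (M : ℕ) :
    LinearIndependent K (fun p : Fin M × Fin n => s ^ (p.1 : ℕ) * x p.2) := by
  have h1 : LinearIndependent K (fun a : Fin M => (AdjoinSimple.gen K s) ^ (a : ℕ)) := by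
    have h2 : LinearIndependent K (fun a : ℕ => (AdjoinSimple.gen K s) ^ a) := by
      have h3 : Transcendental K (AdjoinSimple.gen K s) := by
        intro h
        apply hs
        have := h.algebraMap (A := N)
        rwa [AdjoinSimple.algebraMap_gen] at this
      rw [transcendental_iff_injective] at h3
      have h4 := (Polynomial.basisMonomials K).linearIndependent.map'
        (aeval (AdjoinSimple.gen K s) : K[X] →ₐ[K] K⟮s⟯).toLinearMap
        (LinearMap.ker_eq_bot.2 h3)
      have h5 : (fun a : ℕ => (AdjoinSimple.gen K s) ^ a) =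
          (aeval (AdjoinSimple.gen K s) : K[X] →ₐ[K] K⟮s⟯).toLinearMap ∘
            (Polynomial.basisMonomials K) := by
        funext a
        simp [Polynomial.coe_basisMonomials, aeval_monomial]
      rw [h5]
      exact h4
    exact h2.comp _ Fin.val_injective
  have h5 := linearIndependent_smul h1 hx
  have h6 : (fun p : Fin M × Fin n => s ^ (p.1 : ℕ) * x p.2) =
      fun p : Fin M × Fin n => (AdjoinSimple.gen K s) ^ (p.1 : ℕ) • x p.2 := by
    funext p
    rw [Algebra.smul_def, map_pow, AdjoinSimple.algebraMap_gen]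
  rw [h6]
  exact h5

theorem Place.finrank_le_of_algebraic (hN : IsFunctionField K N) (w : Place K N)
    (W : Submodule K N) (hW : ∀ f ∈ W, IsAlgebraic K f) : Module.finrank K W ≤ w.deg := by
  haveI := w.finite_resField hN
  have hmem : ∀ f ∈ W, f ∈ w.ring := by
    intro f hf
    by_cases h0 : f = 0
    · rw [h0]; exact zero_mem _
    · rw [w.mem_ring, w.val_eq_one_of_algebraic (hW f hf) h0]
  let T : W →ₗ[K] w.resField :=
    { toFun := fun f => w.res (f : N)
      map_add' := by
        intro f g
        rw [← w.res_add (hmem _ f.2) (hmem _ g.2)]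
        rfl
      map_smul' := by
        intro c f
        have h1 : ((c • f : W) : N) = algebraMap K N c * (f : N) := by
          rw [Submodule.coe_smul, Algebra.smul_def]
        rw [h1, w.res_mul (w.ring.algebraMap_mem c) (hmem _ f.2), w.res_algebraMap,
          RingHom.id_apply, Algebra.smul_def] }
  apply LinearMap.finrank_le_finrank_of_injective (f := T)
  rw [← LinearMap.ker_eq_bot, LinearMap.ker_eq_bot']
  intro f hf
  by_contra h0
  have h0' : (f : N) ≠ 0 := fun h => h0 (Subtype.ext h)
  have h1 : w.res (f : N) = 0 := hf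
  rw [w.res_eq_zero_iff (hmem _ f.2), w.val_eq_one_of_algebraic (hW f f.2) h0'] at h1
  exact lt_irrefl _ h1

/-- There is a transcendental function whose only pole is at a given place. -/
theorem IsFunctionField.exists_single_pole (hN : IsFunctionField K N) (w : Place K N) :
    ∃ f : N, Transcendental K f ∧ ∀ v : Place K N, v ≠ w → v.val f ≤ 1 := by
  classical
  obtain ⟨y, hy0, hy⟩ := w.exists_uniformizer
  have hlt : w.val y < 1 := by rw [hy]; exact exp_neg_one_lt
  have hytr := w.transcendental_of_val_ne_one hy0 hlt.ne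
  obtain ⟨T, hT, hsum, -⟩ := hN.zeros y hytr
  set s := y⁻¹ with hs
  have hstr : Transcendental K s := transcendental_inv hytr
  haveI := hN.finiteDimensional s hstr
  have hn : Module.finrank K⟮s⟯ N = Module.finrank K⟮y⟯ N := by rw [hs, finrank_inv]
  obtain ⟨n, hnn⟩ : ∃ n, Module.finrank K⟮s⟯ N = n := ⟨_, rfl⟩
  rw [hnn] at hn
  obtain ⟨x, hxi, hxint⟩ : ∃ x : Fin n → N, LinearIndependent K⟮s⟯ x ∧ ∀ i, IntOver K s (x i) :=
    hnn ▸ exists_integral_basis s hstr
  have hwT : w ∈ T := (hT w).2 hlt
  -- the pole orders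
  let k : Place K N → ℕ := fun v => (v.ord y).toNat
  have hk : ∀ v ∈ T, (k v : ℤ) = v.ord y ∧ 1 ≤ k v := by
    intro v hv
    have h1 : 0 < v.ord y := (v.ord_pos_iff hy0).2 ((hT v).1 hv)
    refine ⟨Int.toNat_of_nonneg h1.le, ?_⟩
    have : (k v : ℤ) = v.ord y := Int.toNat_of_nonneg h1.le
    omega
  have hvs : ∀ v ∈ T, v.val s = WithZero.exp (k v : ℤ) := by
    intro v hv
    have h0 : v.val y ≠ 0 := by simpa using hy0
    rw [(hk v hv).1, hs, map_inv₀, Place.ord, ← WithZero.exp_log h0, WithZero.log_exp,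
      WithZero.exp_neg]
  have hx0 : ∀ i, x i ≠ 0 := fun i => hxi.ne_zero i
  obtain ⟨j, hj⟩ : ∃ j : ℕ, ∀ v ∈ T, ∀ i, WithZero.log (v.val (x i)) ≤ j := by
    refine ⟨∑ v ∈ T, ∑ i, (WithZero.log (v.val (x i))).toNat, fun v hv i => ?_⟩
    have h1 : (WithZero.log (v.val (x i))).toNat ≤ ∑ i, (WithZero.log (v.val (x i))).toNat :=
      Finset.single_le_sum (f := fun i => (WithZero.log (v.val (x i))).toNat)
        (fun _ _ => Nat.zero_le _) (Finset.mem_univ i)
    have h2 : ∑ i, (WithZero.log (v.val (x i))).toNat ≤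
        ∑ v ∈ T, ∑ i, (WithZero.log (v.val (x i))).toNat :=
      Finset.single_le_sum (f := fun v : Place K N => ∑ i, (WithZero.log (v.val (x i))).toNat)
        (fun _ _ => Nat.zero_le _) hv
    have h3 := Int.self_le_toNat (WithZero.log (v.val (x i)))
    push_cast
    have h4 : ((WithZero.log (v.val (x i))).toNat : ℤ) ≤
        ((∑ v ∈ T, ∑ i, (WithZero.log (v.val (x i))).toNat : ℕ) : ℤ) := by
      exact_mod_cast h1.trans h2
    push_cast at h4
    exact h3.trans h4
  set M : ℕ := j * n + w.deg with hM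
  let F : Fin (M + 1) × Fin n → N := fun p => s ^ (p.1 : ℕ) * x p.2
  have hF : LinearIndependent K F := linearIndependent_pow_mul s hstr x hxi (M + 1)
  let W : Submodule K N := Submodule.span K (Set.range F)
  haveI : FiniteDimensional K W := FiniteDimensional.span_of_finite K (Set.finite_range F)
  have hWdim : Module.finrank K W = (M + 1) * n := by
    rw [finrank_span_eq_card hF]
    simp
  have hW1 : ∀ v ∈ T, W ≤ v.filt (((M + j) * k v : ℕ) : ℤ) := by
    intro v hv
    rw [Submodule.span_le]
    rintro _ ⟨p, rfl⟩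
    change v.val (s ^ (p.1 : ℕ) * x p.2) ≤ _
    rw [map_mul, map_pow, hvs v hv, ← WithZero.exp_log (show v.val (x p.2) ≠ 0 by simpa using hx0 p.2),
      ← WithZero.exp_nsmul, ← WithZero.exp_add, WithZero.exp_le_exp]
    have h1 := hj v hv p.2
    have h2 : (p.1 : ℕ) ≤ M := Nat.lt_succ_iff.1 p.1.2
    have h3 := (hk v hv).2
    have h4 : (p.1 : ℕ) * k v + j ≤ (M + j) * k v := by nlinarith
    have h5 : (((p.1 : ℕ) * k v + j : ℕ) : ℤ) ≤ (((M + j) * k v : ℕ) : ℤ) := by exact_mod_cast h4
    simp only [nsmul_eq_mul]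
    push_cast at h5 ⊢
    linarith
  have hW2 : ∀ v : Place K N, v ∉ T → W ≤ v.filt 0 := by
    intro v hv
    have h1 : v.val s ≤ 1 := by
      rw [hT, not_lt] at hv
      rw [hs, map_inv₀]
      exact inv_le_one_of_one_le₀ hv
    rw [Submodule.span_le]
    rintro _ ⟨p, rfl⟩
    change v.val (s ^ (p.1 : ℕ) * x p.2) ≤ _
    rw [map_mul, map_pow, WithZero.exp_zero]
    exact mul_le_one' (pow_le_one' h1 _) ((hxint p.2).mem_ring v h1)
  have hcut := finrank_le_cut_finset (fun v : Place K N => v.finite_resField hN) (T.erase w)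
    (fun v => (M + j) * k v) W (fun v hv => hW1 v (Finset.mem_of_mem_erase hv))
  set W' : Submodule K N := W ⊓ ⨅ v ∈ T.erase w, v.filt 0 with hW'
  have hsum2 : ∑ v ∈ T, k v * v.deg = n := by
    have : ((∑ v ∈ T, k v * v.deg : ℕ) : ℤ) = (n : ℤ) := by
      rw [hn, ← hsum]
      push_cast
      exact Finset.sum_congr rfl fun v hv => by rw [(hk v hv).1]
    exact_mod_cast this
  have hsum3 : ∑ v ∈ T.erase w, (M + j) * k v * v.deg = (M + j) * ∑ v ∈ T.erase w, k v * v.deg := by
    rw [Finset.mul_sum]
    exact Finset.sum_congr rfl fun v _ => by ring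
  have hsum4 : k w * w.deg + ∑ v ∈ T.erase w, k v * v.deg = n := by
    rw [← hsum2, Finset.add_sum_erase T (fun v => k v * v.deg) hwT]
  have hkw := (hk w hwT).2
  have hdw := w.deg_pos hN
  have hbig : w.deg < Module.finrank K W' := by
    rw [hWdim, hsum3] at hcut
    have h1 : 1 ≤ k w * w.deg := Nat.mul_pos hkw hdw
    set r := ∑ v ∈ T.erase w, k v * v.deg
    have h2 : r + 1 ≤ n := by omega
    have h3 : (M + j) * (r + 1) ≤ (M + j) * n := Nat.mul_le_mul_left _ h2
    nlinarith
  by_contra hcon
  push Not at hcon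
  have hall : ∀ f ∈ W', IsAlgebraic K f := by
    intro f hf
    by_contra hftr
    obtain ⟨v, hvw, hv⟩ := hcon f hftr
    by_cases hvT : v ∈ T
    · have h1 : f ∈ ⨅ v ∈ T.erase w, v.filt 0 := hf.2
      rw [Submodule.mem_iInf] at h1
      have h2 := h1 v
      rw [Submodule.mem_iInf] at h2
      have h3 := h2 (Finset.mem_erase.2 ⟨hvw, hvT⟩)
      rw [v.mem_filt, WithZero.exp_zero] at h3
      exact absurd hv (not_lt.2 h3)
    · have h3 := hW2 v hvT hf.1
      rw [v.mem_filt, WithZero.exp_zero] at h3
      exact absurd hv (not_lt.2 h3)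
  have := w.finrank_le_of_algebraic hN W' hall
  omega

/-- Over a finite field, for two different places there is a function whose only zero is the first
and whose only pole is the second. -/
theorem IsFunctionField.exists_zero_pole [Finite K] (hN : IsFunctionField K N)
    (u w : Place K N) (huw : u ≠ w) :
    ∃ φ : N, Transcendental K φ ∧ u.val φ < 1 ∧ (∀ v : Place K N, v.val φ < 1 → v = u) ∧
      (∀ v : Place K N, 1 < v.val φ → v = w) := by
  obtain ⟨f, hf, hfp⟩ := hN.exists_single_pole w
  obtain ⟨φ, h0, h1, h2⟩ := hN.exists_single_zero f hf u (hfp u huw)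
  have htr := u.transcendental_of_val_ne_one h0 h1.ne
  have hpole : ∀ v : Place K N, 1 < v.val φ → v = w := by
    intro v hv
    by_contra hvw
    have h3 := h2 v (hfp v hvw)
    by_cases hvu : v = u
    · rw [hvu] at hv
      exact lt_asymm hv h1
    · rw [h3 hvu] at hv
      exact lt_irrefl _ hv
  refine ⟨φ, htr, h1, fun v hv => ?_, hpole⟩
  by_contra hvu
  by_cases hvw : v = w
  · -- `φ` has a pole, which must be `w`
    obtain ⟨T, hT, hs, hpos⟩ := hN.zeros φ⁻¹ (transcendental_inv htr)
    have hne : T.Nonempty := by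
      by_contra hemp
      rw [Finset.not_nonempty_iff_eq_empty] at hemp
      rw [hemp, Finset.sum_empty] at hs
      have : (0 : ℤ) < (Module.finrank K⟮φ⁻¹⟯ N : ℤ) := by exact_mod_cast hpos
      omega
    obtain ⟨v', hv'⟩ := hne
    rw [hT, map_inv₀, inv_lt_one₀ (zero_lt_iff.2 (by simpa using h0))] at hv'
    have h4 := hpole v' hv'
    rw [h4, ← hvw] at hv'
    exact lt_asymm hv' hv
  · have h3 := h2 v (hfp v hvw) hvu
    rw [h3] at hv
    exact lt_irrefl _ hv

end

end Pool.Agent.Helper16
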