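import Pool.Agent.Helper16.FF1

set_option autoImplicit false
set_option linter.style.haveILetI false

namespace Pool.Agent.Helper16

open Polynomial IntermediateField

section IntOver

variable {K N : Type} [Field K] [Field N] [Algebra K N]

/-- `x` is integral over `K[s]`. -/
def IntOver (K : Type) {N : Type} [Field K] [Field N] [Algebra K N] (s x : N) : Prop :=
  (aeval s : K[X] →ₐ[K] N).toRingHom.IsIntegralElem x

theorem intOver_iff (s x : N) : IntOver K s x ↔ @IsIntegral K[X] N _ _ (algX K s) x := Iff.rfl

theorem IntOver.add {s x y : N} (hx : IntOver K s x) (hy : IntOver K s y) : IntOver K s (x + y) := by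
  letI := algX K s
  exact IsIntegral.add (R := K[X]) hx hy

theorem IntOver.mul {s x y : N} (hx : IntOver K s x) (hy : IntOver K s y) : IntOver K s (x * y) := by
  letI := algX K s
  exact IsIntegral.mul (R := K[X]) hx hy

theorem IntOver.aeval_mem (s : N) (p : K[X]) : IntOver K s (aeval s p) := by
  letI := algX K s
  exact isIntegral_algebraMap (R := K[X]) (A := N) (x := p)

theorem IntOver.self (s : N) : IntOver K s s := by
  simpa using IntOver.aeval_mem (K := K) s X

theorem IntOver.const (s : N) (a : K) : IntOver K s (algebraMap K N a) := by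
  simpa using IntOver.aeval_mem (K := K) s (C a)

theorem IntOver.zero (s : N) : IntOver K s 0 := by
  simpa using IntOver.const (K := K) s 0

theorem IntOver.smul {s x : N} (a : K) (hx : IntOver K s x) : IntOver K s (a • x) := by
  rw [Algebra.smul_def]
  exact (IntOver.const s a).mul hx

theorem IntOver.pow {s x : N} (hx : IntOver K s x) (n : ℕ) : IntOver K s (x ^ n) := by
  letI := algX K s
  exact IsIntegral.pow (R := K[X]) hx n

theorem IntOver.of_isIntegral {s x : N} (hx : IsIntegral K x) : IntOver K s x := by
  letI := algX K s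
  haveI := towerX (K := K) s
  exact IsIntegral.tower_top (R := K) (A := K[X]) hx

theorem IntOver.mem_valuationSubring {s x : N} (hx : IntOver K s x) (V : ValuationSubring N)
    (hK : ∀ a : K, algebraMap K N a ∈ V) (hs : s ∈ V) : x ∈ V := by
  have hmem : ∀ p : K[X], aeval s p ∈ V := by
    intro p
    induction p using Polynomial.induction_on' with
    | add p q hp hq => rw [map_add]; exact V.add_mem _ _ hp hq
    | monomial n a =>
      rw [aeval_monomial]
      exact V.mul_mem _ _ (hK a) (V.toSubring.pow_mem hs n)
  let g : K[X] →+* V := RingHom.codRestrict (aeval s : K[X] →ₐ[K] N).toRingHom V hmem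
  have hcomp : ((algebraMap V N).comp g) = (aeval s : K[X] →ₐ[K] N).toRingHom := by
    ext <;> rfl
  have h1 : (algebraMap V N).IsIntegralElem x := by
    apply RingHom.IsIntegralElem.of_comp (f := g)
    rw [hcomp]
    exact hx
  obtain ⟨y, hy⟩ := IsIntegrallyClosed.isIntegral_iff.1 (show IsIntegral V x from h1)
  rw [← hy]
  exact y.2

/-- An element integral over both `K[s]` and `K[s⁻¹]` is algebraic over `K`. -/
theorem isIntegral_of_intOver_of_intOver_inv {s x : N} (h1 : IntOver K s x)
    (h2 : IntOver K s⁻¹ x) : IsIntegral K x := by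
  have key : x ∈ (integralClosure (Subring.closure (Set.range (algebraMap K N))) N).toSubring := by
    rw [← iInf_valuationSubring_superset]
    rw [Subring.mem_iInf]
    rintro ⟨V, hV⟩
    have hK : ∀ a : K, algebraMap K N a ∈ V := fun a => hV ⟨a, rfl⟩
    rcases V.mem_or_inv_mem s with hs | hs
    · exact h1.mem_valuationSubring V hK hs
    · exact h2.mem_valuationSubring V hK hs
  have h3 : IsIntegral (Subring.closure (Set.range (algebraMap K N))) x := key
  have hcl : ∀ y : Subring.closure (Set.range (algebraMap K N)), ∃ a : K, algebraMap K N a = y := by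
    intro y
    have : Subring.closure (Set.range (algebraMap K N)) ≤ (algebraMap K N).range := by
      rw [Subring.closure_le]
      rintro _ ⟨a, rfl⟩
      exact ⟨a, rfl⟩
    exact this y.2
  obtain ⟨p, hp, hp0⟩ := h3
  have hinj : Function.Injective (algebraMap K N) := (algebraMap K N).injective
  choose c hc using hcl
  let g : (Subring.closure (Set.range (algebraMap K N))) →+* K :=
    { toFun := c
      map_one' := hinj (by rw [hc]; simp)
      map_mul' := fun a b => hinj (by rw [map_mul, hc, hc, hc]; simp)
      map_zero' := hinj (by rw [hc]; simp)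
      map_add' := fun a b => hinj (by rw [map_add, hc, hc, hc]; simp) }
  have hg : (algebraMap K N).comp g = algebraMap (Subring.closure (Set.range (algebraMap K N))) N := by
    ext y
    exact hc y
  have h4 : (algebraMap K N).IsIntegralElem x := by
    apply RingHom.IsIntegralElem.of_comp (f := g)
    rw [hg]
    exact ⟨p, hp, hp0⟩
  exact h4

theorem not_intOver_inv {t : N} (ht : Transcendental K t) : ¬ IntOver K t t⁻¹ := by
  intro h
  letI := algX K t
  letI := algXF K t
  haveI := towerXF (K := K) t
  haveI := isFractionRing_algXF t ht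
  have h1 : @IsIntegral K[X] N _ _ _ t⁻¹ := h
  have h2 : @IsIntegral K[X] K⟮t⟯ _ _ _ (AdjoinSimple.gen K t)⁻¹ := by
    rw [← isIntegral_algebraMap_iff (algebraMap K⟮t⟯ N).injective]
    rw [map_inv₀, AdjoinSimple.algebraMap_gen]
    exact h1
  obtain ⟨p, hp⟩ := IsIntegrallyClosed.isIntegral_iff.1 h2
  have h3 : (aeval t p : N) = t⁻¹ := by
    rw [← algXF_apply, hp]
    simp
  have ht0 : t ≠ 0 := by
    rintro rfl
    exact ht (isAlgebraic_zero)
  have h4 : aeval t (p * X - 1 : K[X]) = 0 := by
    simp [h3, ht0]
  have h5 : p * X - 1 = 0 := by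
    by_contra hne
    exact ht ⟨_, hne, h4⟩
  have h6 := congrArg (Polynomial.eval 0) h5
  simp at h6

/-- Key injectivity: if `b` is integral over `K[s]` and `s * b` is integral over `K[s⁻¹]`
then `b = 0`. -/
theorem eq_zero_of_intOver {s b : N} (hs : Transcendental K s) (h1 : IntOver K s b)
    (h2 : IntOver K s⁻¹ (s * b)) : b = 0 := by
  have hs0 : s ≠ 0 := by
    rintro rfl
    exact hs (isAlgebraic_zero)
  have hsinv : Transcendental K s⁻¹ := by
    intro h
    apply hs
    simpa using IsAlgebraic.inv h
  have h3 : IntOver K s⁻¹ b := by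
    have := (IntOver.self (K := K) s⁻¹).mul h2
    rwa [← mul_assoc, inv_mul_cancel₀ hs0, one_mul] at this
  have h4 : IsIntegral K b := isIntegral_of_intOver_of_intOver_inv h1 h3
  by_contra hb
  have h5 : IntOver K s⁻¹ b⁻¹ := IntOver.of_isIntegral h4.inv
  have h6 := h2.mul h5
  rw [mul_assoc, mul_inv_cancel₀ hb, mul_one] at h6
  apply not_intOver_inv hsinv
  rwa [inv_inv]

end IntOver

end Pool.Agent.Helper16
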