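import Pool.Agent.Helper16.FF2

set_option autoImplicit false
set_option linter.style.haveILetI false

namespace Pool.Agent.Helper16

open Polynomial IntermediateField

section Claim3

variable {K N : Type} [Field K] [Field N] [Algebra K N]

theorem card_le_of_indep_mod {ι : Type} [Fintype ι] (t : N) (ht : Transcendental K t)
    [FiniteDimensional K⟮t⟯ N] (m : ℕ) (β : ι → N) (hβ : ∀ i, IntOver K t (β i))
    (hind : ∀ c : ι → K, ∀ y : N, IntOver K t y → ∑ i, c i • β i = t ^ m * y → c = 0) :
    Fintype.card ι ≤ Module.finrank K⟮t⟯ N * m := by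
  classical
  letI := algX K t
  letI := algXF K t
  haveI := towerXF (K := K) t
  haveI := towerX (K := K) t
  haveI := isFractionRing_algXF t ht
  haveI := faithfulX t ht
  let M : Submodule K[X] N := Submodule.span K[X] (Set.range β)
  haveI : Module.Finite K[X] M := Module.Finite.span_of_finite K[X] (Set.finite_range β)
  haveI : Module.IsTorsionFree K[X] N := inferInstance
  haveI : Module.Free K[X] M := inferInstance
  let b := Module.Free.chooseBasis K[X] M
  let J := Module.Free.ChooseBasisIndex K[X] M
  have hJ : Fintype.card J ≤ Module.finrank K⟮t⟯ N := by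
    have h1 : LinearIndependent K[X] (fun j => (b j : N)) := by
      have := b.linearIndependent
      exact this.map' M.subtype (Submodule.ker_subtype M)
    have h2 : LinearIndependent K⟮t⟯ (fun j => (b j : N)) :=
      (LinearIndependent.iff_fractionRing K[X] K⟮t⟯).1 h1
    exact h2.fintype_card_le_finrank
  have hMint : ∀ y ∈ M, IntOver K t y := by
    intro y hy
    have : M ≤ Subalgebra.toSubmodule (integralClosure K[X] N) := by
      rw [Submodule.span_le]
      rintro _ ⟨i, rfl⟩
      exact hβ i
    exact this hy
  have hβM : ∀ i, β i ∈ M := fun i => Submodule.subset_span ⟨i, rfl⟩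
  let β' : ι → M := fun i => ⟨β i, hβM i⟩
  let T : (ι → K) →ₗ[K] (J → Fin m → K) :=
    LinearMap.pi fun j => LinearMap.pi fun l =>
      (Polynomial.lcoeff K l.val) ∘ₗ
        (((Finsupp.lapply (R := K[X]) j ∘ₗ b.repr.toLinearMap).restrictScalars K) ∘ₗ
          Fintype.linearCombination K β')
  have hTa : ∀ c j l, T c j l = (b.repr (∑ i, c i • β' i) j).coeff l.val := by
    intro c j l
    rfl
  have hT : Function.Injective T := by
    rw [injective_iff_map_eq_zero]
    intro c hc
    have h1 : ∀ j, X ^ m ∣ b.repr (∑ i, c i • β' i) j := by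
      intro j
      rw [Polynomial.X_pow_dvd_iff]
      intro l hl
      have := congrFun (congrFun hc j) ⟨l, hl⟩
      rw [hTa] at this
      exact this
    choose q hq using h1
    let y : M := ∑ j, q j • b j
    have h2 : ∑ i, c i • β' i = (X ^ m : K[X]) • y := by
      rw [← b.sum_repr (∑ i, c i • β' i), Finset.smul_sum]
      refine Finset.sum_congr rfl fun j _ => ?_
      rw [hq j, mul_smul]
    refine hind c y (hMint y y.2) ?_
    have h4 : ∑ i, c i • β i = ((∑ i, c i • β' i : M) : N) := by
      rw [AddSubmonoidClass.coe_finsetSum]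
      rfl
    rw [h4, h2, Submodule.coe_smul, Algebra.smul_def, algX_apply]
    simp
  have h := LinearMap.finrank_le_finrank_of_injective hT
  simp only [Module.finrank_fintype_fun_eq_card, Module.finrank_pi_fintype, Finset.sum_const,
    Finset.card_univ, smul_eq_mul, Fintype.card_fin] at h
  calc Fintype.card ι ≤ Fintype.card J * m := h
    _ ≤ _ := Nat.mul_le_mul_right _ hJ

end Claim3

end Pool.Agent.Helper16
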