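import Pool.Agent.Helper16.FF3

set_option autoImplicit false
set_option linter.style.haveILetI false

namespace Pool.Agent.Helper16

open Polynomial IntermediateField

section Fin

variable {K N : Type} [Field K] [Field N] [Algebra K N]

theorem intOver_of_monic {t y : N} (P : N[X]) (hP : P.Monic) (hc : ∀ j, IntOver K t (P.coeff j))
    (hy : P.eval y = 0) : IntOver K t y := by
  letI := algX K t
  let C := integralClosure K[X] N
  have hl : P ∈ Polynomial.lifts (algebraMap C N) := by
    rw [Polynomial.lifts_iff_coeff_lifts]
    intro j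
    exact ⟨⟨P.coeff j, hc j⟩, rfl⟩
  obtain ⟨Q, hQ, -, hQm⟩ := Polynomial.lifts_and_natDegree_eq_and_monic hl hP
  have h1 : IsIntegral C y := by
    refine ⟨Q, hQm, ?_⟩
    rw [← Polynomial.eval_map, hQ, hy]
  exact isIntegral_trans (R := K[X]) (A := C) y h1

theorem intOver_inv_aeval_mul {s : N} (hs0 : s ≠ 0) (a : K[X]) (e : ℕ) (he : a.natDegree ≤ e) :
    IntOver K s⁻¹ (aeval s a * s⁻¹ ^ e) := by
  rw [Polynomial.aeval_eq_sum_range' (n := e + 1) (by omega), Finset.sum_mul]
  refine Finset.sum_induction _ (fun x => IntOver K s⁻¹ x) (fun _ _ => IntOver.add)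
    (IntOver.zero _) ?_
  intro i hi
  rw [Finset.mem_range] at hi
  have h1 : a.coeff i • s ^ i * s⁻¹ ^ e = a.coeff i • (s⁻¹ ^ (e - i)) := by
    rw [smul_mul_assoc]
    congr 1
    have : e = i + (e - i) := by omega
    rw [this, pow_add, ← mul_assoc, ← mul_pow, mul_inv_cancel₀ hs0, one_pow, one_mul]
    congr 1
    omega
  rw [h1]
  exact ((IntOver.self _).pow _).smul _

theorem exists_twist {s x : N} (hs0 : s ≠ 0) (hx : IntOver K s x) :
    ∃ e : ℕ, ∀ e', e ≤ e' → IntOver K s⁻¹ (s⁻¹ ^ e' * x) := by
  obtain ⟨P, hP, hP0⟩ := hx
  let e := P.support.sup (fun j => (P.coeff j).natDegree)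
  have he : ∀ j, (P.coeff j).natDegree ≤ e := by
    intro j
    by_cases hj : j ∈ P.support
    · exact Finset.le_sup (f := fun j => (P.coeff j).natDegree) hj
    · rw [Polynomial.notMem_support_iff.1 hj]; simp
  have main : IntOver K s⁻¹ (s⁻¹ ^ e * x) := by
    let P' : N[X] := P.map (aeval s : K[X] →ₐ[K] N).toRingHom
    have hP' : P'.Monic := hP.map _
    refine intOver_of_monic (scaleRoots P' (s⁻¹ ^ e)) ?_ ?_ ?_
    · exact (monic_scaleRoots_iff _).2 hP'
    · intro j
      rw [coeff_scaleRoots]
      rcases lt_trichotomy j P'.natDegree with hj | hj | hj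
      · obtain ⟨k, hk⟩ : ∃ k, P'.natDegree - j = k + 1 := ⟨P'.natDegree - j - 1, by omega⟩
        rw [hk, pow_succ, mul_comm ((s⁻¹ ^ e) ^ k), ← mul_assoc]
        refine IntOver.mul ?_ (((IntOver.self _).pow _).pow _)
        rw [Polynomial.coeff_map]
        exact intOver_inv_aeval_mul hs0 _ _ (he j)
      · rw [hj, hP'.coeff_natDegree, Nat.sub_self, pow_zero, one_mul]
        simpa using IntOver.const (K := K) s⁻¹ 1
      · rw [coeff_eq_zero_of_natDegree_lt hj, zero_mul]
        exact IntOver.zero _
    · have h0 : P'.eval x = 0 := by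
        rw [Polynomial.eval_map]; exact hP0
      have := scaleRoots_eval₂_mul (f := RingHom.id N) (p := P') (r := x) (s := s⁻¹ ^ e)
      simp only [RingHom.id_apply, eval₂_id] at this
      rw [this, h0, mul_zero]
  refine ⟨e, fun e' he' => ?_⟩
  obtain ⟨d, rfl⟩ := Nat.exists_eq_add_of_le he'
  rw [pow_add, mul_comm (s⁻¹ ^ e), mul_assoc]
  exact ((IntOver.self _).pow _).mul main

theorem transcendental_ne_zero {s : N} (hs : Transcendental K s) : s ≠ 0 := by
  rintro rfl
  exact hs isAlgebraic_zero

theorem transcendental_inv {s : N} (hs : Transcendental K s) : Transcendental K s⁻¹ := by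
  intro h
  apply hs
  simpa using IsAlgebraic.inv h

theorem adjoin_inv_eq (s : N) : K⟮s⁻¹⟯ = K⟮s⟯ := by
  apply le_antisymm
  · rw [adjoin_simple_le_iff]
    exact inv_mem (mem_adjoin_simple_self K s)
  · rw [adjoin_simple_le_iff]
    have := inv_mem (mem_adjoin_simple_self K s⁻¹)
    rwa [inv_inv] at this

theorem finrank_inv (s : N) : Module.finrank K⟮s⁻¹⟯ N = Module.finrank K⟮s⟯ N := by
  rw [adjoin_inv_eq]

theorem finiteDimensional_inv (s : N) [h : FiniteDimensional K⟮s⟯ N] :
    FiniteDimensional K⟮s⁻¹⟯ N := by
  rw [adjoin_inv_eq]; exact h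

/-- The integral closure of `K[s]` in a finite extension of `K(s)` is a finite module. -/
theorem finite_integralClosure (s : N) (hs : Transcendental K s) [FiniteDimensional K⟮s⟯ N] :
    @Module.Finite K[X] (@integralClosure K[X] N _ _ (algX K s)) _ _
      (@Algebra.toModule _ _ _ _ (@Subalgebra.algebra _ _ _ _ (algX K s) _)) := by
  classical
  letI := algX K s
  letI := algXF K s
  haveI := towerXF (K := K) s
  haveI := towerX (K := K) s
  haveI := isFractionRing_algXF s hs
  haveI := faithfulX s hs
  haveI := finiteDimensional_inv (K := K) s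
  have hs0 := transcendental_ne_zero hs
  obtain ⟨S, ω, hω⟩ := FiniteDimensional.exists_is_basis_integral K[X] K⟮s⟯ N
  let B := integralClosure K[X] N
  let ω' : S → B := fun i => ⟨ω i, hω i⟩
  let B₀ : Submodule K[X] B := Submodule.span K[X] (Set.range ω')
  haveI : Module.Finite K[X] B₀ := Module.Finite.span_of_finite K[X] (Set.finite_range ω')
  have hcardS : Fintype.card S = Module.finrank K⟮s⟯ N := (Module.finrank_eq_card_basis ω).symm
  -- uniform twist for the basis
  choose e he using fun i => exists_twist hs0 (show IntOver K s (ω i) from hω i)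
  let E := Finset.univ.sup e
  have hE : ∀ i, IntOver K s⁻¹ (s⁻¹ ^ E * ω i) := fun i =>
    he i E (Finset.le_sup (Finset.mem_univ i))
  haveI : Module.Finite K (B ⧸ B₀) := by
    have hr : Module.rank K (B ⧸ B₀) ≤ ((Module.finrank K⟮s⟯ N * E : ℕ) : Cardinal) := by
      apply rank_le
      intro T hT
      let bj : T → B := fun j => (B₀.mkQ_surjective j.1).choose
      have hbj : ∀ j, B₀.mkQ (bj j) = j.1 := fun j => (B₀.mkQ_surjective j.1).choose_spec
      choose c hc using fun j => exists_twist hs0 (show IntOver K s ((bj j : B) : N) from (bj j).2)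
      let M := Finset.univ.sup c
      let D := M + E
      have hD : ∀ j, IntOver K s⁻¹ (s⁻¹ ^ D * ((bj j : B) : N)) := fun j =>
        hc j D ((Finset.le_sup (Finset.mem_univ j)).trans (Nat.le_add_right M E))
      let γ : (S × Fin (M + 1)) ⊕ T → N := Sum.elim (fun x => s ^ x.2.val * ω x.1) (fun j => (bj j : N))
      have hγ : ∀ x, IntOver K s (γ x) := by
        rintro (⟨i, a⟩ | j)
        · exact ((IntOver.self s).pow _).mul (hω i)
        · exact (bj j).2
      have hcard := card_le_of_indep_mod (K := K) s⁻¹ (transcendental_inv hs) (D + 1)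
        (fun x => s⁻¹ ^ D * γ x) (by
          rintro (⟨i, a⟩ | j)
          · change IntOver K s⁻¹ (s⁻¹ ^ D * (s ^ a.val * ω i))
            have h1 : s⁻¹ ^ D * (s ^ a.val * ω i) = s⁻¹ ^ (M - a.val) * (s⁻¹ ^ E * ω i) := by
              have h2 : D = (M - a.val) + E + a.val := by
                have := a.isLt
                omega
              rw [h2, pow_add, pow_add]
              have h3 : s⁻¹ ^ a.val * s ^ a.val = 1 := by
                rw [← mul_pow, inv_mul_cancel₀ hs0, one_pow]
              linear_combination (s⁻¹ ^ (M - a.val) * s⁻¹ ^ E * ω i) * h3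
            rw [h1]
            exact ((IntOver.self _).pow _).mul (hE i)
          · exact hD j) (by
          intro d y hy hd
          have h1 : ∑ x, d x • (s⁻¹ ^ D * γ x) = s⁻¹ ^ D * ∑ x, d x • γ x := by
            rw [Finset.mul_sum]
            refine Finset.sum_congr rfl fun x _ => ?_
            rw [mul_smul_comm]
          rw [h1, pow_succ, mul_assoc] at hd
          have h2 : ∑ x, d x • γ x = s⁻¹ * y :=
            mul_left_cancel₀ (pow_ne_zero D (inv_ne_zero hs0)) hd
          have h3 : ∑ x, d x • γ x = 0 := by
            apply eq_zero_of_intOver (K := K) hs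
            · exact Finset.sum_induction _ (fun x => IntOver K s x) (fun _ _ => IntOver.add)
                (IntOver.zero _) (fun x _ => (hγ x).smul _)
            · rw [h2, ← mul_assoc, mul_inv_cancel₀ hs0, one_mul]
              exact hy
          rw [Fintype.sum_sum_type] at h3
          -- reduce modulo B₀
          let z : B := ∑ x : S × Fin (M + 1), (C (d (Sum.inl x)) * X ^ x.2.val : K[X]) • ω' x.1
          have hz : z ∈ B₀ := Submodule.sum_mem _ fun x _ =>
            Submodule.smul_mem _ _ (Submodule.subset_span ⟨x.1, rfl⟩)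
          have hzN : (z : N) = ∑ x : S × Fin (M + 1), d (Sum.inl x) • γ (Sum.inl x) := by
            simp only [z, AddSubmonoidClass.coe_finsetSum]
            refine Finset.sum_congr rfl fun x _ => ?_
            rw [Subalgebra.coe_smul, Algebra.smul_def, algX_apply]
            simp only [map_mul, aeval_C, map_pow, aeval_X, Algebra.smul_def, ω', γ, Sum.elim_inl]
            ring
          have h4 : z + ∑ j, d (Sum.inr j) • bj j = 0 := by
            apply Subtype.ext
            rw [AddMemClass.coe_add, hzN, AddSubmonoidClass.coe_finsetSum]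
            exact h3
          have h5 : ∑ j : T, d (Sum.inr j) • (j : B ⧸ B₀) = 0 := by
            have h6 := congrArg (B₀.mkQ) h4
            rw [map_add, map_zero, Submodule.mkQ_apply, (Submodule.Quotient.mk_eq_zero B₀).2 hz,
              zero_add, map_sum] at h6
            rw [← h6]
            refine Finset.sum_congr rfl fun j _ => ?_
            rw [← hbj j]
            rfl
          have h7 : ∀ j, d (Sum.inr j) = 0 :=
            Fintype.linearIndependent_iff.1 hT (fun j => d (Sum.inr j)) h5
          have h8 : ∑ x : S × Fin (M + 1), d (Sum.inl x) • γ (Sum.inl x) = 0 := by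
            rw [← h3]
            simp [h7]
          have h9 : ∀ i : S, (∑ a : Fin (M + 1), C (d (Sum.inl (i, a))) * X ^ a.val : K[X]) = 0 := by
            have hli : LinearIndependent K[X] (fun i => ω i) :=
              (LinearIndependent.iff_fractionRing K[X] K⟮s⟯).2 ω.linearIndependent
            refine Fintype.linearIndependent_iff.1 hli _ ?_
            rw [← h8, Fintype.sum_prod_type]
            refine Finset.sum_congr rfl fun i _ => ?_
            rw [Finset.sum_smul]
            refine Finset.sum_congr rfl fun a _ => ?_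
            rw [Algebra.smul_def, algX_apply]
            simp only [map_mul, aeval_C, map_pow, aeval_X, Algebra.smul_def, γ, Sum.elim_inl]
            ring
          funext x
          rcases x with ⟨i, a⟩ | j
          · have h10 := congrArg (fun p => Polynomial.coeff p a.val) (h9 i)
            simp only [finsetSum_coeff, coeff_C_mul_X_pow, coeff_zero] at h10
            rw [Finset.sum_eq_single a] at h10
            · simpa using h10
            · intro a' _ ha'
              rw [if_neg]
              intro h
              exact ha' (Fin.ext h.symm)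
            · intro h
              exact absurd (Finset.mem_univ a) h
          · exact h7 j)
      rw [Fintype.card_sum, Fintype.card_prod, Fintype.card_fin, hcardS, finrank_inv,
        Fintype.card_coe] at hcard
      have h11 : D + 1 = (M + 1) + E := by omega
      have h12 : Module.finrank K⟮s⟯ N * (D + 1) =
          Module.finrank K⟮s⟯ N * (M + 1) + Module.finrank K⟮s⟯ N * E := by
        rw [h11, Nat.mul_add]
      rw [h12] at hcard
      exact Nat.le_of_add_le_add_left hcard
    have hlt : Module.rank K (B ⧸ B₀) < Cardinal.aleph0 := lt_of_le_of_lt hr (Cardinal.natCast_lt_aleph0)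
    exact Module.rank_lt_aleph0_iff.1 hlt
  haveI : Module.Finite K[X] (B ⧸ B₀) := Module.Finite.of_restrictScalars_finite K K[X] (B ⧸ B₀)
  exact Module.Finite.of_submodule_quotient B₀

end Fin

end Pool.Agent.Helper16
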