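import Pool.Agent.Helper16.FF4
import Pool.Agent.Helper16.Place

set_option autoImplicit false
set_option linter.style.haveILetI false

namespace Pool.Agent.Helper16

open Polynomial IntermediateField IsDedekindDomain

theorem valuation_eq_of_le {N : Type} [Field N] (v w : Valuation N (WithZero (Multiplicative ℤ)))
    (hv : Function.Surjective v) (hw : Function.Surjective w)
    (h : ∀ x, w x ≤ 1 → v x ≤ 1) : v = w := by
  have h1 : ∀ x, w x = 1 → v x = 1 := by
    intro x hx
    have hx0 : x ≠ 0 := by
      rintro rfl
      rw [map_zero] at hx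
      exact zero_ne_one hx
    refine le_antisymm (h x hx.le) ?_
    have := h x⁻¹ (by rw [map_inv₀, hx, inv_one])
    rw [map_inv₀] at this
    exact (inv_le_one₀ (zero_lt_iff.2 (by simpa using hx0))).1 this
  obtain ⟨p, hp⟩ := hw (WithZero.exp (-1 : ℤ))
  have hp0 : p ≠ 0 := by
    rintro rfl
    rw [map_zero] at hp
    exact WithZero.exp_ne_zero hp.symm
  have h2 : ∀ x (n : ℤ), x ≠ 0 → w x = WithZero.exp (-n) → v x = (v p) ^ n := by
    intro x n hx hn
    have h3 : w (x * (p ^ n)⁻¹) = 1 := by
      rw [map_mul, map_inv₀, map_zpow₀, hn, hp, ← WithZero.exp_zsmul]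
      simp
    have h4 := h1 _ h3
    rw [map_mul, map_inv₀, map_zpow₀] at h4
    exact (mul_inv_eq_one₀ (zpow_ne_zero _ (by simpa using hp0))).1 h4
  have h5 : v p ≤ 1 := h p (by rw [hp, ← WithZero.exp_zero, WithZero.exp_le_exp]; norm_num)
  have hvp0 : v p ≠ 0 := by simpa using hp0
  have key : ∀ x, x ≠ 0 → WithZero.log (v x) = WithZero.log (v p) * (-WithZero.log (w x)) := by
    intro x hx
    have hwx : w x ≠ 0 := by simpa using hx
    have := h2 x (-WithZero.log (w x)) hx (by rw [neg_neg, WithZero.exp_log hwx])
    rw [this, WithZero.log_zpow]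
    simp [mul_comm]
  obtain ⟨y, hy⟩ := hv (WithZero.exp (-1 : ℤ))
  have hy0 : y ≠ 0 := by
    rintro rfl
    rw [map_zero] at hy
    exact WithZero.exp_ne_zero hy.symm
  have h6 := key y hy0
  rw [hy, WithZero.log_exp] at h6
  have h7 : WithZero.log (v p) ≤ 0 := by
    have := (WithZero.log_le_log hvp0 one_ne_zero).2 h5
    simpa using this
  have h8 : WithZero.log (v p) = -1 := by
    have h9 : WithZero.log (v p) * WithZero.log (w y) = 1 := by linarith
    rcases Int.eq_one_or_neg_one_of_mul_eq_one h9 with h | h
    · omega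
    · exact h
  ext x
  by_cases hx : x = 0
  · subst hx; simp
  · have h10 := key x hx
    rw [h8] at h10
    have h11 : WithZero.log (v x) = WithZero.log (w x) := by linarith
    rw [← WithZero.exp_log (show v x ≠ 0 by simpa using hx), h11,
      WithZero.exp_log (show w x ≠ 0 by simpa using hx)]

section Ded

variable {K N : Type} [Field K] [Field N] [Algebra K N]

/-- The integral closure of `K[s]` in `N`. -/
@[reducible] noncomputable def IC (K : Type) {N : Type} [Field K] [Field N] [Algebra K N] (s : N) :
    @Subalgebra K[X] N _ _ (algX K s) := @integralClosure K[X] N _ _ (algX K s)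

theorem isDedekindDomain_IC (s : N) (hs : Transcendental K s) [FiniteDimensional K⟮s⟯ N] :
    IsDedekindDomain (IC K s) := by
  letI := algX K s
  letI := algXF K s
  haveI := towerXF (K := K) s
  haveI := isFractionRing_algXF s hs
  haveI := faithfulX s hs
  haveI := finite_integralClosure s hs
  haveI : IsNoetherianRing (IC K s) := IsNoetherianRing.of_finite K[X] (IC K s)
  haveI : IsIntegrallyClosed (IC K s) :=
    integralClosure.isIntegrallyClosedOfFiniteExtension K⟮s⟯
  haveI : Ring.DimensionLEOne (IC K s) := Ring.DimensionLEOne.of_isIntegral K[X] (IC K s)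
  exact { }

theorem isFractionRing_IC (s : N) (hs : Transcendental K s) [FiniteDimensional K⟮s⟯ N] :
    IsFractionRing (IC K s) N := by
  letI := algX K s
  letI := algXF K s
  haveI := towerXF (K := K) s
  haveI := isFractionRing_algXF s hs
  haveI := faithfulX s hs
  exact integralClosure.isFractionRing_of_finite_extension K⟮s⟯ N

end Ded

end Pool.Agent.Helper16
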