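import Pool.Agent.Helper16.FF8

set_option autoImplicit false
set_option linter.style.haveILetI false

namespace Pool.Agent.Helper16

open Polynomial IntermediateField IsDedekindDomain

section

variable {K N : Type} [Field K] [Field N] [Algebra K N]

/-- Every non-trivial valuation ring of a function field `N/K` containing `K` is the ring of a
place. -/
theorem IsFunctionField.exists_place (hN : IsFunctionField K N) (O : ValuationSubring N)
    (hK : ∀ a : K, algebraMap K N a ∈ O) (y : N) (hy : y ∉ O) :
    ∃ v : Place K N, ∀ x, v.val x ≤ 1 ↔ x ∈ O := by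
  have hy0 : y ≠ 0 := by
    rintro rfl
    exact hy (zero_mem _)
  have hytr : Transcendental K y := by
    intro halg
    exact hy ((IntOver.of_isIntegral (s := (0 : N)) halg.isIntegral).mem_valuationSubring O hK
      (zero_mem _))
  have hs : Transcendental K y⁻¹ := transcendental_inv hytr
  haveI := hN.finiteDimensional y⁻¹ hs
  haveI := isDedekindDomain_IC y⁻¹ hs
  haveI := isFractionRing_IC y⁻¹ hs
  have hsO : y⁻¹ ∈ O := by
    rcases O.mem_or_inv_mem y with h | h
    · exact absurd h hy
    · exact h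
  have hIC : ∀ b : IC K y⁻¹, (b : N) ∈ O := fun b =>
    IntOver.mem_valuationSubring (K := K) b.2 O hK hsO
  let P : Ideal (IC K y⁻¹) :=
    { carrier := {b | O.valuation (b : N) < 1}
      add_mem' := fun {a b} ha hb => O.valuation.map_add_lt ha hb
      zero_mem' := by
        change O.valuation ((0 : IC K y⁻¹) : N) < 1
        simp
      smul_mem' := by
        intro c b hb
        change O.valuation ((c * b : IC K y⁻¹) : N) < 1
        have h1 : ((c * b : IC K y⁻¹) : N) = (c : N) * (b : N) := rfl
        rw [h1, map_mul, mul_comm]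
        exact mul_lt_one_of_lt_of_le hb ((O.valuation_le_one_iff _).2 (hIC c)) }
  have hmem : ∀ b : IC K y⁻¹, b ∈ P ↔ O.valuation (b : N) < 1 := fun b => Iff.rfl
  have hprime : P.IsPrime := by
    refine ⟨?_, ?_⟩
    · rw [Ideal.ne_top_iff_one, hmem]
      have h1 : ((1 : IC K y⁻¹) : N) = 1 := rfl
      rw [h1, map_one]
      exact lt_irrefl _
    · intro a b hab
      rw [hmem] at hab
      have h1 : ((a * b : IC K y⁻¹) : N) = (a : N) * (b : N) := rfl
      rw [h1, map_mul] at hab
      by_contra hcon
      rw [not_or, hmem, hmem, not_lt, not_lt] at hcon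
      exact absurd hab (not_lt.2 (one_le_mul hcon.1 hcon.2))
  have hsP : sIC K y⁻¹ ∈ P := by
    rw [hmem]
    change O.valuation y⁻¹ < 1
    rw [map_inv₀]
    apply inv_lt_one_of_one_lt₀
    rw [← not_le, O.valuation_le_one_iff]
    exact hy
  have hbot : P ≠ ⊥ := by
    intro h0
    rw [h0] at hsP
    exact sIC_ne_zero hs hsP
  let Q : HeightOneSpectrum (IC K y⁻¹) := ⟨P, hprime, hbot⟩
  have hsub : ∀ x, (placeOfPrime y⁻¹ hs Q).val x ≤ 1 → x ∈ O := by
    intro x hx
    obtain ⟨n, d, hnd⟩ := Q.exists_primeCompl_mul_eq_of_integer (K := N) x hx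
    have hd : O.valuation (algebraMap (IC K y⁻¹) N d) = 1 := by
      refine le_antisymm ((O.valuation_le_one_iff _).2 (hIC d)) ?_
      by_contra hlt
      rw [not_le] at hlt
      exact d.2 hlt
    have h1 := congrArg O.valuation hnd
    rw [map_mul, hd, mul_one] at h1
    rw [← O.valuation_le_one_iff, h1, O.valuation_le_one_iff]
    exact hIC n
  refine ⟨placeOfPrime y⁻¹ hs Q, fun x => ⟨hsub x, fun hx => ?_⟩⟩
  by_contra hlt
  rw [not_le] at hlt
  set w := placeOfPrime y⁻¹ hs Q with hw
  have hx0 : x ≠ 0 := by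
    rintro rfl
    simp at hlt
  -- a power of `x` has larger value than `y`
  have h3 : ∃ n : ℕ, w.val y ≤ (w.val x) ^ n := by
    have h4 : 0 < WithZero.log (w.val x) := by
      have := (WithZero.log_lt_log one_ne_zero (by simpa using hx0)).2 hlt
      simpa using this
    refine ⟨(WithZero.log (w.val y)).toNat, ?_⟩
    rw [← WithZero.log_le_log (by simpa using hy0) (pow_ne_zero _ (by simpa using hx0)),
      WithZero.log_pow]
    have h5 : WithZero.log (w.val y) ≤ ((WithZero.log (w.val y)).toNat : ℤ) := Int.self_le_toNat _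
    have h6 : ((WithZero.log (w.val y)).toNat : ℤ) ≤
        ((WithZero.log (w.val y)).toNat : ℤ) * WithZero.log (w.val x) := by
      nlinarith
    simpa using h5.trans h6
  obtain ⟨n, hn⟩ := h3
  apply hy
  have h7 : y * (x ^ n)⁻¹ ∈ O := by
    apply hsub
    rw [map_mul, map_inv₀, map_pow]
    apply mul_inv_le_one_of_le₀ hn
    exact zero_le
  have h8 : y = (y * (x ^ n)⁻¹) * x ^ n := by
    field_simp
  rw [h8]
  exact O.mul_mem _ _ h7 (O.toSubring.pow_mem hx n)

theorem finite_classGroup [Finite K] (s : N) (hs : Transcendental K s) [FiniteDimensional K⟮s⟯ N] :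
    Finite (ClassGroup (IC K s)) := by
  classical
  letI := algX K s
  haveI := isDedekindDomain_IC s hs
  haveI := finite_integralClosure s hs
  haveI := faithfulX s hs
  haveI : FaithfulSMul K[X] (IC K s) := by
    rw [faithfulSMul_iff_algebraMap_injective]
    intro a b hab
    apply (faithfulSMul_iff_algebraMap_injective K[X] N).1 (faithfulX s hs)
    exact congrArg Subtype.val hab
  haveI : Module.Free K[X] (IC K s) := inferInstance
  letI := Fintype.ofFinite K
  have bS := Module.Free.chooseBasis K[X] (IC K s)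
  haveI : Algebra.IsAlgebraic K[X] (IC K s) := Algebra.IsIntegral.isAlgebraic
  haveI := ClassGroup.fintypeOfAdmissibleOfAlgebraic bS Polynomial.cardPowDegreeIsAdmissible
  exact Finite.of_fintype _

theorem placeOfPrime_val_eq_one_iff (s : N) (hs : Transcendental K s) [FiniteDimensional K⟮s⟯ N]
    (P : HeightOneSpectrum (IC K s)) (b : IC K s) :
    (placeOfPrime s hs P).val (b : N) = 1 ↔ b ∉ P.asIdeal := by
  rw [← placeOfPrime_val_lt s hs P b, not_lt]
  exact ⟨fun h => h.ge, fun h => le_antisymm (placeOfPrime_val_algebraMap s hs P b) h⟩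

/-- Over a finite field, every place with `s` regular has a function which vanishes there and at no
other place at which `s` is regular. -/
theorem IsFunctionField.exists_single_zero [Finite K] (hN : IsFunctionField K N) (s : N)
    (hs : Transcendental K s) (u : Place K N) (hu : u.val s ≤ 1) :
    ∃ φ : N, φ ≠ 0 ∧ u.val φ < 1 ∧ ∀ v : Place K N, v.val s ≤ 1 → v ≠ u → v.val φ = 1 := by
  haveI := hN.finiteDimensional s hs
  haveI := isDedekindDomain_IC s hs
  haveI := isFractionRing_IC s hs
  haveI := finite_classGroup s hs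
  obtain ⟨P, rfl⟩ := exists_placeOfPrime s hs u hu
  have hP0 : P.asIdeal ∈ nonZeroDivisors (Ideal (IC K s)) := mem_nonZeroDivisors_of_ne_zero P.ne_bot
  obtain ⟨n, hn, hn1⟩ := isOfFinOrder_iff_pow_eq_one.1
    (isOfFinOrder_of_finite (ClassGroup.mk0 (⟨P.asIdeal, hP0⟩ : nonZeroDivisors (Ideal (IC K s)))))
  rw [← map_pow] at hn1
  have hprin := (ClassGroup.mk0_eq_one_iff (I := P.asIdeal ^ n) (pow_mem hP0 n)).1 hn1
  obtain ⟨b, hb⟩ := hprin.principal
  change P.asIdeal ^ n = Ideal.span {b} at hb
  have hb0 : b ≠ 0 := by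
    rintro rfl
    rw [Ideal.span_singleton_eq_bot.2 rfl] at hb
    exact P.ne_bot (pow_eq_zero_iff (M₀ := Ideal (IC K s)) hn.ne' |>.1 hb)
  refine ⟨(b : N), fun h => hb0 (Subtype.ext h), ?_, ?_⟩
  · rw [placeOfPrime_val_lt]
    have h1 : b ∈ P.asIdeal ^ n := by
      rw [hb]
      exact Ideal.mem_span_singleton_self b
    exact Ideal.pow_le_self hn.ne' h1
  · intro v hv hvu
    obtain ⟨Q, rfl⟩ := exists_placeOfPrime s hs v hv
    rw [placeOfPrime_val_eq_one_iff]
    intro hbQ
    apply hvu
    have h1 : P.asIdeal ^ n ≤ Q.asIdeal := by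
      rw [hb, Ideal.span_singleton_le_iff_mem]
      exact hbQ
    have h2 : P.asIdeal ≤ Q.asIdeal := Q.isPrime.le_of_pow_le h1
    have h3 : P.asIdeal = Q.asIdeal := P.isMaximal.eq_of_le Q.isPrime.ne_top h2
    rw [HeightOneSpectrum.ext h3]

end

end Pool.Agent.Helper16
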